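import Pool.Agent.H59.LIN.Targets

/-!
# Realizing weight systems over rings by Vassiliev invariants (`MP_559314_gt`): the composition
-/

set_option autoImplicit false

open Finset Polynomial

namespace Pool.Agent.H59.LIN

/-- the composition of the rows -/
theorem asm.{u}
    (pIND : T_IND) (pUQ : T_IND → T_UQ) (pHR : T_HR) (pHC : T_HR → T_HC)
    (pHL : T_HR → T_HC → T_HL) (pHE : T_HR → T_HC → T_HE)
    (pHT : T_HR → T_HC → T_HL → T_HE → T_HT) (pEXI : T_HR → T_HC → T_HL → T_HT → T_EXI)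
    (pNCL : T_NCL) (pS0 : T_IND → T_NCL → T_S0) (pCLA : T_CLA) (pCLB : T_CLB)
    (pISQ : T_UQ → T_CLA → T_CLB → T_ISQ) (pCMP : T_UQ → T_CMP) (pBIN : T_BIN)
    (pINT : T_EXI → T_NCL → T_S0 → T_ISQ → T_CMP → T_BIN → T_INT)
    (pCAI : T_CAI) (pCAP : T_CAI → T_CAP) (pCAB : T_CAI → T_CAP → T_CAB) (pBR : T_BR)
    (pFTS : T_S0 → T_FTS) (pCMA : T_CMA) (pCMB : T_CMB) (pCMC : T_CMC)
    (pCMD : T_NCL → T_CMA → T_CMB → T_CMC → T_CMD) (pREP : T_REP)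
    (pSYM : T_FTS → T_CMD → T_SYM) (pFB1 : T_SYM → T_FB1)
    (pFB0 : T_INT → T_SYM → T_FB1 → T_CAB → T_FB0) (pFBA : T_EXI → T_FB1 → T_FB0 → T_FBA)
    (pMON : T_CAP → T_CAB → T_BR → T_CMC → T_FBA → T_MON)
    (pCIR : T_CIR) (pHCO : T_CIR → T_HCO) (pPRS : T_PRS) (pETA : T_HCO → T_ETA)
    (pZED : T_PRS → T_ETA → T_ZED) (pTRF : T_TRF) (pHLO : T_TRF → T_HLO) (pPHL : T_HLO → T_PHL)
    (pALD : T_ALD) (pPLV : T_PLV) (pCON : T_CON) (pGEX : T_PHL → T_GEX)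
    (pVVF : T_VVF) (pVAL : T_VVF → T_VAL) (pHVA : T_TRF → T_HLO → T_PLV → T_VAL → T_HVA)
    (pPAV : T_PRS → T_PLV → T_CON → T_GEX → T_HVA → T_PAV)
    (pUPR : T_PRS → T_ALD → T_PLV → T_CON → T_GEX → T_PAV → T_UPR)
    (pCNT : T_CNT) (pTRI : T_TRI) (pFNI : T_FNI) (pINP : T_MON → T_REP → T_INP)
    (pDUA : T_UPR → T_CNT → T_TRI → T_FNI → T_INP → T_DUA)
    (pREA : T_MON → T_FNI → T_DUA → T_ZED → T_REA.{u})
    (pCWU : T_UQ → T_CWU)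
    (pCWF : T_EXI → T_CWU → T_FB0 → T_SYM → T_CAB → T_CAP → T_BR → T_CMC → T_CWF) :
    T_REP ∧ T_CMC ∧ T_REA.{u} ∧ T_CWF := by
  have hUQ := pUQ pIND
  have hHC := pHC pHR
  have hHL := pHL pHR hHC
  have hHT := pHT pHR hHC hHL (pHE pHR hHC)
  have hEXI := pEXI pHR hHC hHL hHT
  have hS0 := pS0 pIND pNCL
  have hINT := pINT hEXI pNCL hS0 (pISQ hUQ pCLA pCLB) (pCMP hUQ) pBIN
  have hCAP := pCAP pCAI
  have hCAB := pCAB pCAI hCAP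
  have hSYM := pSYM (pFTS hS0) (pCMD pNCL pCMA pCMB pCMC)
  have hFB1 := pFB1 hSYM
  have hFB0 := pFB0 hINT hSYM hFB1 hCAB
  have hMON := pMON hCAP hCAB pBR pCMC (pFBA hEXI hFB1 hFB0)
  have hZED := pZED pPRS (pETA (pHCO pCIR))
  have hHLO := pHLO pTRF
  have hGEX := pGEX (pPHL hHLO)
  have hHVA := pHVA pTRF hHLO pPLV (pVAL pVVF)
  have hPAV := pPAV pPRS pPLV pCON hGEX hHVA
  have hUPR := pUPR pPRS pALD pPLV pCON hGEX hPAV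
  have hDUA := pDUA hUPR pCNT pTRI pFNI (pINP hMON pREP)
  exact ⟨pREP, pCMC, pREA hMON pFNI hDUA hZED,
    pCWF hEXI (pCWU hUQ) hFB0 hSYM hCAB hCAP pBR pCMC⟩

end Pool.Agent.H59.LIN
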