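import Pool.Agent.H59.LIN.FBA

set_option autoImplicit false

open Finset Polynomial

namespace Pool.Agent.H59.LIN

/-- invariance under the moves -/
theorem skn_mv {K : Type} [CommRing K] {s δ : K} {T : (n : ℕ) → Wd n → K} (hT : Skn s δ T)
    (x y : Σ n, Wd n) (h : Mv x y) : T x.1 x.2 = T y.1 y.2 := by
  cases h with
  | cancel n u v i b => exact hT.cancel n u v i b
  | far n u v i j b c h => exact hT.far n u v i j b c h
  | braid n u v i j h => exact hT.braid n u v i j h
  | conj n u v => exact hT.conj n u v
  | stab n w b => exact (hT.stab n w b).symm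

theorem exists_conway (hEXI : T_EXI) : ∃ c, Conway c := by
  obtain ⟨T, hT⟩ := exK hEXI
  have hs : PowerSeries.map (Polynomial.evalRingHom (0 : ℤ)) sK = PowerSeries.X := by
    simp [sK]
  have hd : PowerSeries.map (Polynomial.evalRingHom (0 : ℤ)) dK = 0 := by
    simp [dK]
  refine ⟨fun n w => PowerSeries.map (Polynomial.evalRingHom (0 : ℤ)) (T n w), ?_, ?_, ?_⟩
  · change PowerSeries.map _ (T 0 []) = 1
    rw [hT.one, map_one]
  · intro x y h
    change PowerSeries.map _ (T x.1 x.2) = PowerSeries.map _ (T y.1 y.2)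
    rw [skn_mv hT x y h]
  · intro n u v i
    change PowerSeries.map _ (T n (u ++ (i, true) :: v)) -
      PowerSeries.map _ (T n (u ++ (i, false) :: v)) = PowerSeries.X * PowerSeries.map _ (T n (u ++ v))
    rw [hT.skein]
    simp only [map_add, map_mul, map_sub, map_one, hs, hd, mul_zero, sub_zero, one_mul]
    ring

end Pool.Agent.H59.LIN
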