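import Pool.Agent.H59.LIN.Stmt

/-!
# Realizing weight systems over rings by Vassiliev invariants (`MP_559314_gt`): objects of the proof
-/

set_option autoImplicit false

open Finset Polynomial

namespace Pool.Agent.H59.LIN

/-! ### set functions with the convolution product -/

/-- set functions -/
def SF (α K : Type) : Type := Finset α → K

namespace SF

variable {α K : Type} [DecidableEq α] [CommRing K]

instance : AddCommGroup (SF α K) := inferInstanceAs (AddCommGroup (Finset α → K))

instance : Mul (SF α K) := ⟨fun f g A => ∑ B ∈ A.powerset, f B * g (A \ B)⟩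

instance : One (SF α K) := ⟨fun A => if A = ∅ then 1 else 0⟩

theorem mul_def (f g : SF α K) (A : Finset α) :
    (f * g) A = ∑ B ∈ A.powerset, f B * g (A \ B) := rfl

omit [DecidableEq α] in
theorem add_def (f g : SF α K) (A : Finset α) : (f + g) A = f A + g A := rfl

theorem one_def (A : Finset α) : (1 : SF α K) A = if A = ∅ then 1 else 0 := by
  change (if A = ∅ then (1 : K) else 0) = _
  congr

protected theorem mul_comm (f g : SF α K) : f * g = g * f := by
  funext A
  rw [mul_def, mul_def]
  refine Finset.sum_nbij' (fun B => A \ B) (fun B => A \ B) ?_ ?_ ?_ ?_ ?_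
  · intro B _; exact mem_powerset.2 sdiff_subset
  · intro B _; exact mem_powerset.2 sdiff_subset
  · intro B hB; exact Finset.sdiff_sdiff_eq_self (mem_powerset.1 hB)
  · intro B hB; exact Finset.sdiff_sdiff_eq_self (mem_powerset.1 hB)
  · intro B hB
    rw [Finset.sdiff_sdiff_eq_self (mem_powerset.1 hB), _root_.mul_comm]

protected theorem one_mul (f : SF α K) : 1 * f = f := by
  funext A
  rw [mul_def, Finset.sum_eq_single ∅]
  · rw [one_def, if_pos rfl, _root_.one_mul, sdiff_empty]
  · intro B _ hB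
    rw [one_def, if_neg hB, zero_mul]
  · intro h
    exact absurd (empty_mem_powerset A) h

protected theorem mul_assoc (f g h : SF α K) : f * g * h = f * (g * h) := by
  funext A
  simp only [mul_def, Finset.sum_mul, Finset.mul_sum]
  rw [Finset.sum_sigma', Finset.sum_sigma']
  refine Finset.sum_nbij' (fun x => ⟨x.2, x.1 \ x.2⟩) (fun x => ⟨x.1 ∪ x.2, x.1⟩) ?_ ?_ ?_ ?_ ?_
  · rintro ⟨B, C⟩ hx
    simp only [mem_sigma, mem_powerset] at hx ⊢
    exact ⟨hx.2.trans hx.1, sdiff_subset_sdiff hx.1 subset_rfl⟩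
  · rintro ⟨B, C⟩ hx
    simp only [mem_sigma, mem_powerset] at hx ⊢
    exact ⟨union_subset hx.1 (hx.2.trans sdiff_subset), subset_union_left⟩
  · rintro ⟨B, C⟩ hx
    simp only [mem_sigma, mem_powerset] at hx
    have : C ∪ B \ C = B := union_sdiff_of_subset hx.2
    simp only [this]
  · rintro ⟨B, C⟩ hx
    simp only [mem_sigma, mem_powerset] at hx
    have : (B ∪ C) \ B = C := by
      rw [union_sdiff_left]
      exact sdiff_eq_self_of_disjoint (disjoint_of_subset_left hx.2 sdiff_disjoint)
    simp only [this]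
  · rintro ⟨B, C⟩ hx
    simp only [mem_sigma, mem_powerset] at hx
    have h1 : (A \ C) \ (B \ C) = A \ B := by
      ext a
      simp only [mem_sdiff]
      constructor
      · rintro ⟨⟨h1, h2⟩, h3⟩
        exact ⟨h1, fun h4 => h3 ⟨h4, h2⟩⟩
      · rintro ⟨h1, h2⟩
        exact ⟨⟨h1, fun h3 => h2 (hx.2 h3)⟩, fun h3 => h2 h3.1⟩
    simp only [h1]
    ring

instance : CommRing (SF α K) :=
  { (inferInstance : AddCommGroup (SF α K)) with
    mul := (· * ·)
    one := 1
    mul_assoc := SF.mul_assoc
    one_mul := SF.one_mul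
    mul_one := fun f => by rw [SF.mul_comm, SF.one_mul]
    zero_mul := fun f => by
      funext A
      rw [mul_def]
      exact Finset.sum_eq_zero fun B _ => zero_mul _
    mul_zero := fun f => by
      funext A
      rw [mul_def]
      exact Finset.sum_eq_zero fun B _ => mul_zero _
    left_distrib := fun f g h => by
      funext A
      rw [add_def, mul_def, mul_def, mul_def, ← Finset.sum_add_distrib]
      exact Finset.sum_congr rfl fun B _ => mul_add _ _ _
    right_distrib := fun f g h => by
      funext A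
      rw [add_def, mul_def, mul_def, mul_def, ← Finset.sum_add_distrib]
      exact Finset.sum_congr rfl fun B _ => add_mul _ _ _
    mul_comm := SF.mul_comm }

/-- constants -/
def con : K →+* SF α K where
  toFun c := fun A => if A = ∅ then c else 0
  map_one' := by funext A; rw [one_def]
  map_zero' := by
    funext A
    change (if A = ∅ then (0 : K) else 0) = 0
    split_ifs <;> rfl
  map_add' a b := by
    funext A
    change (if A = ∅ then a + b else 0) = (if A = ∅ then a else 0) + (if A = ∅ then b else 0)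
    split_ifs
    · rfl
    · rw [add_zero]
  map_mul' a b := by
    funext A
    change (if A = ∅ then a * b else 0) =
      ∑ B ∈ A.powerset, (if B = ∅ then a else 0) * (if A \ B = ∅ then b else 0)
    rw [Finset.sum_eq_single ∅]
    · rw [if_pos rfl, sdiff_empty]
      split_ifs
      · rfl
      · rw [mul_zero]
    · intro B _ hB
      rw [if_neg hB, zero_mul]
    · intro h
      exact absurd (empty_mem_powerset A) h

instance : Algebra K (SF α K) := RingHom.toAlgebra con

theorem alg_def (c : K) (A : Finset α) : algebraMap K (SF α K) c A = if A = ∅ then c else 0 := rfl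

theorem smul_def' (c : K) (f : SF α K) (A : Finset α) : (c • f) A = c * f A := by
  rw [Algebra.smul_def, mul_def, Finset.sum_eq_single ∅]
  · rw [alg_def, if_pos rfl, sdiff_empty]
  · intro B _ hB
    rw [alg_def, if_neg hB, zero_mul]
  · intro h
    exact absurd (empty_mem_powerset A) h

end SF


/-! ### the skein theory of braid words -/

/-- A property of braid words which is closed under the skein relations. -/
structure Cl (Q : (n : ℕ) → Wd n → Prop) : Prop where
  one : Q 0 []
  dis : ∀ n (w : Wd n), Q n w → Q (n + 1) (up w)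
  stab : ∀ n (w : Wd n) (b : Bool), Q n w → Q (n + 1) (up w ++ [(Fin.last n, b)])
  conj : ∀ n (u v : Wd n), Q n (u ++ v) → Q n (v ++ u)
  cancel : ∀ n (u v : Wd n) (i : Fin n) (b : Bool), Q n (u ++ v) →
    Q n (u ++ (i, b) :: (i, !b) :: v)
  far : ∀ n (u v : Wd n) (i j : Fin n) (b c : Bool), ((i : ℕ) + 1 < j ∨ (j : ℕ) + 1 < i) →
    Q n (u ++ (i, b) :: (j, c) :: v) → Q n (u ++ (j, c) :: (i, b) :: v)
  braid : ∀ n (u v : Wd n) (i j : Fin n), (j : ℕ) = i + 1 →
    Q n (u ++ (i, true) :: (j, true) :: (i, true) :: v) →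
    Q n (u ++ (j, true) :: (i, true) :: (j, true) :: v)
  sk1 : ∀ n (u v : Wd n) (i : Fin n), Q n (u ++ (i, false) :: v) → Q n (u ++ v) →
    Q n (u ++ (i, true) :: v)
  sk2 : ∀ n (u v : Wd n) (i : Fin n), Q n (u ++ (i, true) :: v) → Q n (u ++ v) →
    Q n (u ++ (i, false) :: v)

/-- The HOMFLYPT polynomial of closed braids, in the variables `s`, `δ`: the skein relation is
`T(+) = (1 - s δ) T(-) + s T(0)`, and a further unknotted component multiplies by `δ`. -/
structure Skn {K : Type} [CommRing K] (s δ : K) (T : (n : ℕ) → Wd n → K) : Prop where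
  one : T 0 [] = 1
  dis : ∀ n (w : Wd n), T (n + 1) (up w) = δ * T n w
  stab : ∀ n (w : Wd n) (b : Bool), T (n + 1) (up w ++ [(Fin.last n, b)]) = T n w
  conj : ∀ n (u v : Wd n), T n (u ++ v) = T n (v ++ u)
  cancel : ∀ n (u v : Wd n) (i : Fin n) (b : Bool),
    T n (u ++ (i, b) :: (i, !b) :: v) = T n (u ++ v)
  far : ∀ n (u v : Wd n) (i j : Fin n) (b c : Bool), (i : ℕ) + 1 < j →
    T n (u ++ (i, b) :: (j, c) :: v) = T n (u ++ (j, c) :: (i, b) :: v)
  braid : ∀ n (u v : Wd n) (i j : Fin n), (j : ℕ) = i + 1 →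
    T n (u ++ (i, true) :: (j, true) :: (i, true) :: v) =
      T n (u ++ (j, true) :: (i, true) :: (j, true) :: v)
  skein : ∀ n (u v : Wd n) (i : Fin n),
    T n (u ++ (i, true) :: v) = (1 - s * δ) * T n (u ++ (i, false) :: v) + s * T n (u ++ v)

/-- the ring of the HOMFLYPT polynomial: `ℤ[X]⟦s⟧`, `δ = X` -/
abbrev KK : Type := PowerSeries ℤ[X]

/-- the variable `s` -/
noncomputable def sK : KK := PowerSeries.X

/-- the variable `δ` -/
noncomputable def dK : KK := PowerSeries.C (X : ℤ[X])

/-- the coefficient of `s ^ m δ ^ i` -/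
noncomputable def pc (T : (n : ℕ) → Wd n → KK) (m i : ℕ) (n : ℕ) (w : Wd n) : ℤ :=
  (PowerSeries.coeff m (T n w)).coeff i

/-- the homogeneous part of degree `2 j`, evaluated at `s = δ = 1` -/
noncomputable def ec (T : (n : ℕ) → Wd n → KK) (j : ℕ) (n : ℕ) (w : Wd n) : ℤ :=
  ∑ m ∈ range (2 * j + 1), pc T m (2 * j - m) n w

/-! ### the Hecke algebras as modules -/

section Hecke

variable (K : Type) [CommRing K]

/-- the regular module of the Hecke algebra with the generators `g_0, …, g_{m-1}` -/
def MM : ℕ → Type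
  | 0 => K
  | m + 1 => Fin (m + 2) → MM m

instance instMA : (m : ℕ) → AddCommGroup (MM K m)
  | 0 => inferInstanceAs (AddCommGroup K)
  | m + 1 =>
    letI := instMA m
    inferInstanceAs (AddCommGroup (Fin (m + 2) → MM K m))

instance instMM : (m : ℕ) → Module K (MM K m)
  | 0 => inferInstanceAs (Module K K)
  | m + 1 =>
    letI := instMM m
    inferInstanceAs (Module K (Fin (m + 2) → MM K m))

/-- the component `k` (`0` if `k` is too large) -/
def gp (m : ℕ) (k : ℕ) : MM K (m + 1) →ₗ[K] MM K m :=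
  if h : k < m + 2 then LinearMap.proj (φ := fun _ : Fin (m + 2) => MM K m) ⟨k, h⟩ else 0

/-- `y ↦ y c_k`: the vector with the component `y` at `k` -/
def sg (m : ℕ) (k : ℕ) : MM K m →ₗ[K] MM K (m + 1) :=
  if h : k < m + 2 then LinearMap.single K (fun _ : Fin (m + 2) => MM K m) ⟨k, h⟩ else 0

/-- the linear map with the components `F l` -/
def pim (m : ℕ) {V : Type} [AddCommGroup V] [Module K V] (F : ℕ → V →ₗ[K] MM K m) :
    V →ₗ[K] MM K (m + 1) :=
  LinearMap.pi (φ := fun _ : Fin (m + 2) => MM K m) fun l => F l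

variable {K}

/-- The right multiplication by the generator `g_i` (`i < m`): with `c_{m+1} = 1`,
`c_k = g_m ⋯ g_k` one has `c_k g_i = g_i c_k` (`i + 1 < k`), `c_{i+1} g_i = c_i`,
`c_i g_i = κ c_{i+1} + s c_i`, `c_k g_i = g_{i-1} c_k` (`k < i`). -/
def RR (s κ : K) : (m : ℕ) → ℕ → MM K m →ₗ[K] MM K m
  | 0, _ => 0
  | m + 1, i => pim K m fun l =>
      if l < i then RR s κ m (i - 1) ∘ₗ gp K m l
      else if l = i then gp K m (i + 1) + s • gp K m i
      else if l = i + 1 then κ • gp K m i
      else RR s κ m i ∘ₗ gp K m l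

/-- the inclusion of the smaller algebra -/
def io (K : Type) [CommRing K] (m : ℕ) : MM K m →ₗ[K] MM K (m + 1) := sg K m (m + 1)

/-- the unit element -/
def eb (K : Type) [CommRing K] : (m : ℕ) → MM K m
  | 0 => (1 : K)
  | m + 1 => io K m (eb K m)

/-- the left multiplication by `g_m` of the elements of the smaller algebra -/
def la (K : Type) [CommRing K] : (m : ℕ) → MM K m →ₗ[K] MM K (m + 1)
  | 0 => sg K 0 0
  | m + 1 => pim K (m + 1) fun j => if j < m + 2 then io K m ∘ₗ gp K m j else 0

/-- the right multiplication by `g_{m-1} ⋯ g_k` -/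
def RC (s κ : K) (m k : ℕ) : Module.End K (MM K m) :=
  ((List.range' k (m - k)).map fun i => (RR s κ m i : Module.End K (MM K m))).prod

/-- the left multiplication by the generator `g_i` -/
def LL (s κ : K) : (m : ℕ) → ℕ → MM K m →ₗ[K] MM K m
  | 0, _ => 0
  | m + 1, i =>
      if i < m then pim K m fun l => LL s κ m i ∘ₗ gp K m l
      else ∑ k ∈ range (m + 2), (RC s κ (m + 1) k : MM K (m + 1) →ₗ[K] MM K (m + 1)) ∘ₗ
        la K m ∘ₗ gp K m k

/-- the conditional expectation -/
def EX (s κ δ : K) (m : ℕ) : MM K (m + 1) →ₗ[K] MM K m :=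
  δ • gp K m (m + 1) + ∑ k ∈ range (m + 1), (RC s κ m k : MM K m →ₗ[K] MM K m) ∘ₗ gp K m k

/-- the trace -/
def TT (s κ δ : K) : (m : ℕ) → MM K m →ₗ[K] K
  | 0 => (LinearMap.id : K →ₗ[K] K)
  | m + 1 => TT s κ δ m ∘ₗ EX s κ δ m

end Hecke

/-! ### the Ising model -/

/-- the generators of the Clifford algebra -/
noncomputable def cm (m : ℕ) (j : Fin m) : Matrix (Finset (Fin m)) (Finset (Fin m)) ℝ :=
  fun S S' => if S' = symmDiff S {j} then (-1) ^ (S.filter fun i => i < j).card else 0

/-- the operator of a braid word -/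
noncomputable def gm {n : ℕ} (w : Wd n) :
    Matrix (Finset (Fin (n + 1))) (Finset (Fin (n + 1))) ℝ :=
  (w.map fun x => (√2)⁻¹ • (1 + (if x.2 then (1 : ℝ) else -1) •
    (cm (n + 1) x.1.castSucc * cm (n + 1) x.1.succ))).prod

/-- the Ising evaluation -/
noncomputable def TI (n : ℕ) (w : Wd n) : ℝ := √2 ^ n * (2 ^ (n + 1))⁻¹ * (gm w).trace

/-- `√2` in `ℤ√2` -/
def r2 : Zsqrtd 2 := ⟨0, 1⟩

/-! ### cubes -/

/-- the alternating sum over the signs of the points of `A` -/
def Dif {α K : Type} [DecidableEq α] [CommRing K] (A : Finset α) (F : (α → Bool) → K)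
    (ε : α → Bool) : K :=
  ∑ S ∈ A.powerset, (-1) ^ S.card * F fun x => if x ∈ A then decide (x ∉ S) else ε x

/-- `F` has degree at most `m`. -/
def Dg {α K : Type} [DecidableEq α] [CommRing K] (F : (α → Bool) → K) (m : ℕ) : Prop :=
  ∀ (A : Finset α) (ε : α → Bool), m < A.card → Dif A F ε = 0

/-- the symbol of degree `m` -/
def sy {α K : Type} [DecidableEq α] [CommRing K] (F : (α → Bool) → K) (m : ℕ) : SF α K :=
  fun A => if A.card = m then Dif A F (fun _ => true) else 0

/-- the word with the sign `ε k` at the double point `k` (the letters are numbered from `k`) -/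
def res {n : ℕ} : ℕ → SWd n → (ℕ → Bool) → Wd n
  | _, [], _ => []
  | k, (i, s) :: w, ε => (i, s.getD (ε k)) :: res (k + 1) w ε

/-- the signs `ε` at the points `t a` -/
def pus {α : Type} [Fintype α] (t : α → ℕ) (ε : α → Bool) (k : ℕ) : Bool :=
  decide (∃ a, t a = k ∧ ε a = true)

/-- the function on the cube of the resolutions -/
def cb {α R : Type} [Fintype α] {n : ℕ} (v : Wd n → R) (w : SWd n) (t : α → ℕ) (ε : α → Bool) : R :=
  v (res 0 w (pus t ε))

/-- `t` enumerates the double points of `w`. -/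
def IsDb {α : Type} {n : ℕ} (w : SWd n) (t : α → ℕ) : Prop :=
  ∀ k, (∃ a, t a = k) ↔ ∃ i, w[k]? = some (i, none)

/-- `v` has degree at most `m` on all cubes. -/
def Dgr {R : Type} [CommRing R] (v : (n : ℕ) → Wd n → R) (m : ℕ) : Prop :=
  ∀ (n : ℕ) (w : SWd n) (d : ℕ) (t : Fin d → ℕ), Knot w → Function.Injective t → IsDb w t →
    Dg (cb (v n) w t) m

/-- the word without the letters with the numbers in `B` (the letters are numbered from `k`) -/
def rmv {β : Type} (B : Finset ℕ) : ℕ → List β → List β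
  | _, [] => []
  | k, x :: w => if k ∈ B then rmv B (k + 1) w else x :: rmv B (k + 1) w

/-- one step along the closure of the word `w` without the letters in `B`: `(k, p)` is the
position `p` before the letter `k` -/
def stp {n : ℕ} {β : Type} (w : List (Fin n × β)) (B : Finset ℕ)
    (x : Fin w.length × Fin (n + 1)) : Fin w.length × Fin (n + 1) :=
  (finRotate _ x.1, if (x.1 : ℕ) ∈ B then x.2 else tr (w.get x.1).1 x.2)

/-! ### the functionals -/

/-- the degree of the basic invariant `b` -/
def mb (b : ℕ × ℕ) : ℕ := b.1 + 2 * b.2 + 2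

/-- the coefficients of the HOMFLYPT weight system of degree `m` -/
noncomputable def eta {d : ℕ} (D : CD d) (m j : ℕ) : SF (Fin d) ℚ :=
  fun A => if A.card = m then ((hh D A).coeff j : ℚ) else 0

/-- the symbols of the basic invariants -/
noncomputable def phi {d : ℕ} (D : CD d) (b : ℕ × ℕ) : SF (Fin d) ℚ :=
  if b.1 = 0 then
    (if b.2 = 0 then eta D 2 0
      else (1 / 2 : ℚ) • (eta D (2 * b.2 + 2) 0 -
        ((b.2 + 1).factorial : ℚ)⁻¹ • (eta D 2 0) ^ (b.2 + 1)))
  else ∑ l ∈ range (b.1 / 2 + 1), eta D (mb b) (b.1 - 2 * l)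

/-- the weight of a multiset of basic invariants -/
def wt (ν : Multiset (ℕ × ℕ)) : ℕ := (ν.map mb).sum

/-- the symbol of the product of binomial coefficients of the basic invariants -/
noncomputable def Phi {d : ℕ} (D : CD d) (ν : Multiset (ℕ × ℕ)) : ℚ :=
  (∏ b ∈ ν.toFinset, ((ν.count b).factorial : ℚ)⁻¹) * (ν.map (phi D)).prod univ

/-! ### alternating combinations of chord diagrams -/

/-- the endpoints of the chords of `B` -/
def sub {d : ℕ} (D : CD d) (B : Finset (Fin d)) : List (Fin d × Bool) :=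
  (List.ofFn D).filter fun x => x.1 ∈ B

/-- places: one letter, or the antisymmetrization of two adjacent letters -/
inductive Pl (γ : Type) : Type
  | si : γ → Pl γ
  | pr : γ → γ → Pl γ

/-- relabelling -/
def Pl.map {γ γ' : Type} (f : γ → γ') : Pl γ → Pl γ'
  | .si a => .si (f a)
  | .pr a b => .pr (f a) (f b)

/-- the letters of a place -/
def Pl.fl {γ : Type} : Pl γ → List γ
  | .si a => [a]
  | .pr a b => [a, b]

/-- the letters of a list of places -/
def flt {γ : Type} (P : List (Pl γ)) : List γ := P.flatMap Pl.fl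

/-- the alternating sum of `f` over the words of the list of places `P`, after the initial word -/
def alt {γ M : Type} [AddCommGroup M] (f : List γ → M) : List γ → List (Pl γ) → M
  | u, [] => f u
  | u, .si a :: P => alt f (u ++ [a]) P
  | u, .pr a b :: P => alt f (u ++ [a, b]) P - alt f (u ++ [b, a]) P

/-- The combination `x` of chord diagrams is the alternating combination of `P`. -/
def Alt {d : ℕ} (x : CD d → ℤ) (P : List (Pl (Fin d × Bool))) : Prop :=
  ∀ (M : Type) [AddCommGroup M] (g : List (Fin d × Bool) → M),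
    ∑ D, x D • g (List.ofFn D) = alt g [] P

/-- The chords of `P` are connected by the pairs. -/
def Conn {d : ℕ} (P : List (Pl (Fin d × Bool))) : Prop :=
  ∀ κ : Fin d → ℕ, (∀ a b, Pl.pr a b ∈ P → κ a.1 = κ b.1) → ∀ a ∈ flt P, ∀ b ∈ flt P, κ a.1 = κ b.1

/-- the product functional -/
def prw {d r : ℕ} (G : Fin r → List (Fin d × Bool) → ℚ) (u : List (Fin d × Bool)) : ℚ :=
  ∑ κ : Fin d → Fin r, ∏ p, G p (u.filter fun a => κ a.1 = p)

/-- the chain `(a, a+1), (a+1, a+2), …` with `k` pairs -/
def chn (a k : ℕ) : List (Pl (ℕ × Bool)) :=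
  (List.range k).map fun x => Pl.pr (a + x, true) (a + x + 1, false)

/-- the places of the basic combination `b` -/
def PLn (b : ℕ × ℕ) : List (Pl (ℕ × Bool)) :=
  if b.2 = 0 then Pl.si (0, false) :: chn 0 (b.1 + 1) ++ [Pl.si (b.1 + 1, true)]
  else Pl.si (0, false) :: chn 0 (b.1 - 1) ++ chn (b.1 - 1 + 1) (mb b - (b.1 - 1) - 2) ++
    [Pl.pr (b.1 - 1, true) (b.1 - 1 + 1, false), Pl.si (mb b - 1, true)]

/-- the places of the basic combination `b` -/
def PL (b : ℕ × ℕ) : List (Pl (Fin (mb b) × Bool)) :=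
  (PLn b).map (Pl.map fun x => (⟨x.1 % mb b, Nat.mod_lt _ (by simp [mb])⟩, x.2))

/-- relabelling of the chords -/
def rel {α β : Type} (j : α → β) (x : α × Bool) : β × Bool := (j x.1, x.2)

/-- the polynomials `0, 1, X, X² + 1, …` -/
noncomputable def al : ℕ → ℤ[X]
  | 0 => 0
  | k + 1 => X * al k + if Even k then 1 else 0

/-- the value of the HOMFLYPT weight system on the basic combination -/
noncomputable def hp (b : ℕ × ℕ) : ℤ[X] :=
  (X ^ 2 - 1) * if b.2 = 0 then X ^ b.1
    else X ^ (b.1 - 1) * ((if Odd (mb b - (b.1 - 1) - 3) then 1 else 0) +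
      al (mb b - (b.1 - 1) - 3))

/-! ### matrices -/

/-- the elementary matrix of an endpoint -/
def EE {γ : Type} {N : ℕ} (I : γ → Fin N × Fin N) (x : γ × Bool) : Matrix (Fin N) (Fin N) ℤ :=
  if x.2 then Matrix.single (I x.1).2 (I x.1).1 1 else Matrix.single (I x.1).1 (I x.1).2 1

/-- the matrix of a place -/
def plM {γ : Type} {N : ℕ} (M : γ → Matrix (Fin N) (Fin N) ℤ) : Pl γ → Matrix (Fin N) (Fin N) ℤ
  | .si a => M a
  | .pr a b => M a * M b - M b * M a

/-- the sums over the chains -/
def VV (N : ℕ) : ℕ → Matrix (Fin N) (Fin N) ℤ → Matrix (Fin N) (Fin N) ℤ →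
    Matrix (Fin N) (Fin N) ℤ
  | 0, A, B => A * B - B * A
  | k + 1, A, B => ∑ g : Fin N × Fin N,
      (A * Matrix.single g.1 g.2 1 - Matrix.single g.1 g.2 1 * A) *
        VV N k (Matrix.single g.2 g.1 1) B

end Pool.Agent.H59.LIN
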