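import Pool.Agent.H59.LIN.Targets

set_option autoImplicit false

open Finset Polynomial

namespace Pool.Agent.H59.LIN

theorem exK (hEXI : T_EXI) : ∃ T : (n : ℕ) → Wd n → KK, Skn sK dK T := by
  have hc : PowerSeries.constantCoeff (1 - sK * dK) = (1 : ℤ[X]) := by
    simp [sK, dK]
  have hu : IsUnit (1 - sK * dK : KK) := by
    rw [PowerSeries.isUnit_iff_constantCoeff, hc]
    exact isUnit_one
  obtain ⟨u, hu⟩ := hu
  exact hEXI KK sK dK ((u⁻¹ : (KK)ˣ) : KK) (by rw [← hu]; exact Units.mul_inv u)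

theorem pf_FBA (hEXI : T_EXI) (hFB1 : T_FB1) (hFB0 : T_FB0) : T_FBA := by
  obtain ⟨T, hT⟩ := exK hEXI
  obtain ⟨h1, h2⟩ := hFB1 T hT
  rintro ⟨i, t⟩
  rcases Nat.eq_zero_or_pos i with rfl | hi
  · rcases Nat.eq_zero_or_pos t with rfl | ht
    · exact ⟨_, h2⟩
    · exact hFB0 T hT t ht
  · exact h1 (i, t) hi

theorem pf_INP (hMON : T_MON) (hREP : T_REP) : T_INP := by
  rintro d D ν rfl
  obtain ⟨F, -, -, hF⟩ := hMON ν
  obtain ⟨n, w, hk, hr⟩ := hREP _ D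
  exact ⟨_, (hF n w D hk hr).symm⟩

end Pool.Agent.H59.LIN
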