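import Pool.Agent.H59.LIN.Targets

set_option autoImplicit false

open Finset Polynomial

namespace Pool.Agent.H59.LIN

/-- sums over functions which only depend on the restriction to the range of `j` -/
theorem sum_res {α β G : Type} [Fintype α] [Fintype β] [DecidableEq α] [DecidableEq β] [Fintype G]
    (j : β ↪ α) (F : (β → G) → ℤ) :
    ∑ I : α → G, F (I ∘ j) =
      (Fintype.card G : ℤ) ^ (Fintype.card α - Fintype.card β) * ∑ J : β → G, F J := by
  classical
  let e : β ≃ {a // a ∈ Set.range j} := Equiv.ofInjective j j.injective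
  let E1 : (α → G) ≃ ({a // a ∈ Set.range j} → G) × ({a // ¬ a ∈ Set.range j} → G) :=
    Equiv.piEquivPiSubtypeProd (fun a => a ∈ Set.range j) fun _ => G
  have h1 : ∑ I : α → G, F (I ∘ j) =
      ∑ x : ({a // a ∈ Set.range j} → G) × ({a // ¬ a ∈ Set.range j} → G),
        F (fun b => x.1 (e b)) := by
    refine Fintype.sum_equiv E1 _ _ fun I => ?_
    congr 1
  rw [h1, Fintype.sum_prod_type]
  simp only [Finset.sum_const, Finset.card_univ, nsmul_eq_mul]
  rw [← Finset.mul_sum]
  congr 1
  · rw [Fintype.card_fun]
    have h2 : Fintype.card {a // ¬ a ∈ Set.range j} = Fintype.card α - Fintype.card β := by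
      rw [Fintype.card_subtype_compl, ← Fintype.card_congr e]
    rw [h2]
    push_cast
    rfl
  · refine Fintype.sum_equiv (Equiv.arrowCongr e.symm (Equiv.refl G)) _ _ fun J => ?_
    congr 1

theorem sub_map_of {d d' : ℕ} (D : CD d) (D' : CD d') (j : Fin d' ↪ Fin d) (A B : Finset (Fin d'))
    (hBA : B ⊆ A) (h : sub D (A.map j) = (sub D' A).map (rel j)) :
    sub D (B.map j) = (sub D' B).map (rel j) := by
  have e1 : sub D (B.map j) = (sub D (A.map j)).filter fun x => x.1 ∈ B.map j := by
    unfold sub
    rw [List.filter_filter]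
    refine List.filter_congr fun x _ => ?_
    by_cases hx : x.1 ∈ B.map j
    · simp only [hx, decide_true, Bool.true_and]
      exact (decide_eq_true (Finset.map_subset_map.2 hBA hx)).symm
    · simp only [hx, decide_false, Bool.false_and]
  have e2 : sub D' B = (sub D' A).filter fun x => x.1 ∈ B := by
    unfold sub
    rw [List.filter_filter]
    refine List.filter_congr fun x _ => ?_
    by_cases hx : x.1 ∈ B
    · simp only [hx, decide_true, Bool.true_and]
      exact (decide_eq_true (hBA hx)).symm
    · simp only [hx, decide_false, Bool.false_and]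
  rw [e1, e2, h, List.filter_map]
  congr 1
  refine List.filter_congr fun x _ => ?_
  exact decide_eq_decide.2 (Finset.mem_map' j)

theorem circ_local (hTRF : T_TRF) {d d' : ℕ} (D : CD d) (D' : CD d') (j : Fin d' ↪ Fin d)
    (B : Finset (Fin d')) (hd' : 0 < d') (h : sub D (B.map j) = (sub D' B).map (rel j)) :
    circ D (B.map j) = circ D' B := by
  classical
  have hle : d' ≤ d := by
    have := Fintype.card_le_of_embedding j
    simpa using this
  have hB : B.card ≤ d' := by
    have := Finset.card_le_univ B
    simpa using this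
  have h1 := hTRF d D (B.map j) 2 (by omega)
  have h2 := hTRF d' D' B 2 hd'
  rw [h] at h1
  have h3 : ∀ I : Fin d → Fin 2 × Fin 2,
      ((((sub D' B).map (rel j)).map (EE I)).prod).trace =
        (fun J : Fin d' → Fin 2 × Fin 2 => (((sub D' B).map (EE J)).prod).trace) (I ∘ j) := by
    intro I
    simp only [List.map_map]
    rfl
  rw [Finset.sum_congr rfl fun I _ => h3 I] at h1
  rw [sum_res j (fun J : Fin d' → Fin 2 × Fin 2 => (((sub D' B).map (EE J)).prod).trace), h2] at h1
  simp only [Fintype.card_prod, Fintype.card_fin, Finset.card_map] at h1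
  have h4 : (2 : ℕ) ^ (2 * (d - d')) * 2 ^ (2 * (d' - B.card) + circ D' B) =
      2 ^ (2 * (d - B.card) + circ D (B.map j)) := by
    have h5 : ((2 * 2 : ℕ) : ℤ) ^ (d - d') = 2 ^ (2 * (d - d')) := by
      rw [pow_mul]; norm_num
    rw [h5] at h1
    exact_mod_cast h1
  rw [← pow_add] at h4
  have h6 := Nat.pow_right_injective (le_refl 2) h4
  omega

theorem circ_empty (hTRF : T_TRF) {d : ℕ} (D : CD d) (hd : 0 < d) : circ D ∅ = 1 := by
  have h1 := hTRF d D ∅ 2 hd
  have h2 : sub D ∅ = [] := by
    unfold sub
    rw [List.filter_eq_nil_iff]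
    intro a _
    simp
  rw [h2] at h1
  simp only [List.map_nil, List.prod_nil, Matrix.trace_one, Fintype.card_fin, Finset.sum_const,
    Finset.card_univ, Fintype.card_fun, Fintype.card_prod, nsmul_eq_mul, Finset.card_empty,
    Nat.sub_zero] at h1
  have h4 : (2 : ℕ) ^ (2 * d + 1) = 2 ^ (2 * d + circ D ∅) := by
    have h5 : (((2 * 2) ^ d : ℕ) : ℤ) * ((2 : ℕ) : ℤ) = 2 ^ (2 * d + 1) := by
      push_cast
      rw [pow_succ, pow_mul]
      norm_num
    rw [h5] at h1
    exact_mod_cast h1
  have h6 := Nat.pow_right_injective (le_refl 2) h4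
  omega

theorem pf_HLO (hTRF : T_TRF) : T_HLO := by
  classical
  intro d d' D D' j A h
  have key : ∀ B ⊆ A, circ D (B.map j) - 1 = circ D' B - 1 := by
    intro B hB
    rcases Nat.eq_zero_or_pos d' with h0 | h0
    · subst h0
      have hB0 : B = ∅ := Finset.eq_empty_of_isEmpty B
      subst hB0
      have h1 : circ D' ∅ = 0 := by
        unfold circ ncl
        have : IsEmpty (Fin (2 * 0)) := by
          rw [Nat.mul_zero]; infer_instance
        simp
      rw [Finset.map_empty, h1]
      rcases Nat.eq_zero_or_pos d with h2 | h2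
      · subst h2
        unfold circ ncl
        have : IsEmpty (Fin (2 * 0)) := by
          rw [Nat.mul_zero]; infer_instance
        simp
      · rw [circ_empty hTRF D h2]
    · rw [circ_local hTRF D D' j B h0 (sub_map_of D D' j A B hB h)]
  unfold hh
  symm
  refine Finset.sum_nbij (fun B => B.map j) ?_ ?_ ?_ ?_
  · intro B hB
    rw [Finset.mem_powerset] at hB ⊢
    exact Finset.map_subset_map.2 hB
  · intro B _ C _ hBC
    exact Finset.map_injective j hBC
  · intro C hC
    rw [Finset.mem_coe, Finset.mem_powerset] at hC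
    obtain ⟨B, hB, hBC⟩ := Finset.subset_map_iff.1 hC
    exact ⟨B, Finset.mem_coe.2 (Finset.mem_powerset.2 hB), hBC.symm⟩
  · intro B hB
    rw [Finset.mem_powerset] at hB
    simp only [Finset.card_map]
    rw [key B hB]

end Pool.Agent.H59.LIN
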