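import Pool.Agent.H59.LIN.Targets

set_option autoImplicit false

open Finset Polynomial

namespace Pool.Agent.H59.LIN

section Ext

variable {R : Type*} [Ring R] {n : ℕ}

theorem ext_add (f g : Wd n → R) : ∀ (w : SWd n) (u : Wd n),
    ext (fun x => f x + g x) u w = ext f u w + ext g u w
  | [], _ => rfl
  | (i, some b) :: w, u => by
    simp only [ext]
    exact ext_add f g w _
  | (i, none) :: w, u => by
    simp only [ext]
    rw [ext_add f g w, ext_add f g w]
    abel

theorem ext_zero : ∀ (w : SWd n) (u : Wd n), ext (fun _ : Wd n => (0 : R)) u w = 0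
  | [], _ => rfl
  | (i, some b) :: w, u => by
    simp only [ext]
    exact ext_zero w _
  | (i, none) :: w, u => by
    simp only [ext]
    rw [ext_zero w, ext_zero w, sub_zero]

theorem ext_smul (f : Wd n → ℤ) (a : R) : ∀ (w : SWd n) (u : Wd n),
    ext (fun x => (f x) • a) u w = (ext f u w) • a
  | [], _ => rfl
  | (i, some b) :: w, u => by
    simp only [ext]
    exact ext_smul f a w _
  | (i, none) :: w, u => by
    simp only [ext]
    rw [ext_smul f a w, ext_smul f a w, sub_smul]

theorem ext_sum {ι : Type} (s : Finset ι) (F : ι → Wd n → R) (w : SWd n) (u : Wd n) :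
    ext (fun x => ∑ i ∈ s, F i x) u w = ∑ i ∈ s, ext (F i) u w := by
  classical
  induction s using Finset.induction_on with
  | empty =>
    simp only [sum_empty]
    exact ext_zero w u
  | insert a s ha ih =>
    simp only [sum_insert ha]
    rw [ext_add, ih]

end Ext

theorem pf_REA.{u} (hMON : T_MON) (hFNI : T_FNI) (hDUA : T_DUA) (hZED : T_ZED) : T_REA.{u} := by
  classical
  intro R _ d W hW
  choose F hF1 hF2 hF3 using hMON
  have hfin : Finite {ν : Multiset (ℕ × ℕ) // wt ν = d} := (hFNI d).to_subtype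
  let _ : Fintype {ν : Multiset (ℕ × ℕ) // wt ν = d} := Fintype.ofFinite _
  have hx : ∀ μ : {ν : Multiset (ℕ × ℕ) // wt ν = d}, ∃ x : CD d → ℤ,
      ∀ ν, wt ν = d → ∑ D, (x D : ℚ) * Phi D ν = if ν = μ.1 then 1 else 0 :=
    fun μ => hDUA d μ.1 μ.2
  choose x hx using hx
  let A : {ν : Multiset (ℕ × ℕ) // wt ν = d} → R := fun μ => ∑ D, x μ D • W D
  refine ⟨fun n w => ∑ μ : {ν : Multiset (ℕ × ℕ) // wt ν = d}, (F μ.1 n w) • A μ, ?_, ?_, ?_⟩
  · intro a b hab hk
    exact Finset.sum_congr rfl fun μ _ => by rw [hF1 μ.1 a b hab hk]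
  · intro n w hk hd
    rw [ext_sum (Finset.univ) (fun (μ : {ν : Multiset (ℕ × ℕ) // wt ν = d}) w => (F μ.1 n w) • A μ)]
    refine Finset.sum_eq_zero fun μ _ => ?_
    rw [ext_smul, hF2 μ.1 n w hk (by rw [μ.2]; exact hd), zero_smul]
  · intro n w D hk hr
    rw [ext_sum (Finset.univ) (fun (μ : {ν : Multiset (ℕ × ℕ) // wt ν = d}) w => (F μ.1 n w) • A μ)]
    have hz : ∀ μ : {ν : Multiset (ℕ × ℕ) // wt ν = d},
        ((ext (F μ.1 n) [] w : ℤ) : ℚ) = Phi D μ.1 := by
      rintro ⟨μ, hμ⟩
      subst hμ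
      exact hF3 μ n w D hk hr
    have h1 : ∀ ν : Multiset (ℕ × ℕ), wt ν = d →
        ∑ E, (((if E = D then (1 : ℤ) else 0) -
          ∑ μ : {ν : Multiset (ℕ × ℕ) // wt ν = d}, ext (F μ.1 n) [] w * x μ E : ℤ) : ℚ) *
          Phi E ν = 0 := by
      intro ν hν
      have e1 : ∀ E : CD d, (((if E = D then (1 : ℤ) else 0) -
          ∑ μ : {ν : Multiset (ℕ × ℕ) // wt ν = d}, ext (F μ.1 n) [] w * x μ E : ℤ) : ℚ) *
          Phi E ν = (if E = D then Phi E ν else 0) -
          ∑ μ : {ν : Multiset (ℕ × ℕ) // wt ν = d}, Phi D μ.1 * ((x μ E : ℚ) * Phi E ν) := by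
        intro E
        push_cast
        rw [sub_mul, Finset.sum_mul]
        congr 1
        · split_ifs
          · rw [one_mul]
          · rw [zero_mul]
        · refine Finset.sum_congr rfl fun μ _ => ?_
          rw [hz μ]
          ring
      rw [Finset.sum_congr rfl fun E _ => e1 E, Finset.sum_sub_distrib, Finset.sum_comm,
        Finset.sum_ite_eq' Finset.univ D, if_pos (Finset.mem_univ D)]
      have e2 : ∀ μ : {ν : Multiset (ℕ × ℕ) // wt ν = d},
          ∑ E, Phi D μ.1 * ((x μ E : ℚ) * Phi E ν) = if ν = μ.1 then Phi D μ.1 else 0 := by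
        intro μ
        rw [← Finset.mul_sum, hx μ ν hν]
        split_ifs
        · rw [mul_one]
        · rw [mul_zero]
      rw [Finset.sum_congr rfl fun μ _ => e2 μ, Finset.sum_eq_single ⟨ν, hν⟩]
      · rw [if_pos rfl, sub_self]
      · intro μ _ hμ
        rw [if_neg]
        rintro rfl
        exact hμ rfl
      · intro h
        exact absurd (Finset.mem_univ _) h
    have h2 : ∀ (r : ℕ) (m j : Fin r → ℕ), ∑ E, ((if E = D then (1 : ℤ) else 0) -
          ∑ μ : {ν : Multiset (ℕ × ℕ) // wt ν = d}, ext (F μ.1 n) [] w * x μ E) *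
            prodH E m j = 0 := by
      intro r m j
      have := hZED d (fun E => (((if E = D then (1 : ℤ) else 0) -
          ∑ μ : {ν : Multiset (ℕ × ℕ) // wt ν = d}, ext (F μ.1 n) [] w * x μ E : ℤ) : ℚ)) h1 r m j
      exact_mod_cast this
    have h3 := hW _ h2
    have e3 : ∀ E : CD d, ((if E = D then (1 : ℤ) else 0) -
          ∑ μ : {ν : Multiset (ℕ × ℕ) // wt ν = d}, ext (F μ.1 n) [] w * x μ E) • W E =
          (if E = D then W E else 0) -
          ∑ μ : {ν : Multiset (ℕ × ℕ) // wt ν = d}, ext (F μ.1 n) [] w • (x μ E • W E) := by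
      intro E
      rw [sub_smul, Finset.sum_smul]
      congr 1
      · split_ifs
        · rw [one_smul]
        · rw [zero_smul]
      · exact Finset.sum_congr rfl fun μ _ => by rw [mul_smul]
    rw [Finset.sum_congr rfl fun E _ => e3 E, Finset.sum_sub_distrib, Finset.sum_comm,
      Finset.sum_ite_eq' Finset.univ D, if_pos (Finset.mem_univ D)] at h3
    rw [eq_comm, ← sub_eq_zero, ← h3]
    congr 1
    refine Finset.sum_congr rfl fun μ _ => ?_
    rw [ext_smul]
    simp only [A]
    rw [Finset.smul_sum]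

end Pool.Agent.H59.LIN
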