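import Pool.Agent.H1.LIN.EXI
import Pool.Agent.H1.LIN.HE
import Pool.Agent.H1.LIN.MON
import Pool.Agent.H11.LIN.CWF
import Pool.Agent.H11.LIN.SZ
import Pool.Agent.H16.LIN.UQ
import Pool.Agent.H20.LIN.CONb
import Pool.Agent.H20.LIN.FTS
import Pool.Agent.H20.LIN.REP
import Pool.Agent.H25.LIN.BR
import Pool.Agent.H33.LIN.CAB
import Pool.Agent.H36.LIN.CLA
import Pool.Agent.H36.LIN.IND
import Pool.Agent.H37.LIN.CMD
import Pool.Agent.H37.LIN.PRS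
import Pool.Agent.H39.LIN.CLB
import Pool.Agent.H40.LIN.HR
import Pool.Agent.H42.LIN.FNI
import Pool.Agent.H42.LIN.TRF
import Pool.Agent.H45.LIN.CWU
import Pool.Agent.H45.LIN.GEX
import Pool.Agent.H49.LIN.CMC
import Pool.Agent.H54.LIN.ISQ
import Pool.Agent.H55.LIN.HC
import Pool.Agent.H56.LIN.CIR
import Pool.Agent.H59.LIN.CWE
import Pool.Agent.H59.LIN.FBA
import Pool.Agent.H59.LIN.HLO
import Pool.Agent.H59.LIN.REA
import Pool.Agent.H60.LIN.CAP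
import Pool.Agent.H60.LIN.CMP
import Pool.Agent.H60.LIN.ETA
import Pool.Agent.H60.LIN.SYM
import Pool.Agent.H61.LIN.PHL
import Pool.Agent.H63.LIN.DUA
import Pool.Agent.H66.LIN.NCL
import Pool.Agent.H68.LIN.CMA
import Pool.Agent.H7.LIN.CMB
import Pool.Agent.H7.LIN.VAL
import Pool.Agent.H70.LIN.PAV
import Pool.Agent.H72.LIN.CAI
import Pool.Agent.H74.LIN.FB0
import Pool.Agent.H78.LIN.ZED
import Pool.Agent.H80.LIN.HT
import Pool.Agent.H82.LIN.PLV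
import Pool.Agent.H82.LIN.UPR
import Pool.Agent.H86.LIN.HL
import Pool.Agent.H88.LIN.HVA
import Pool.Agent.H88.LIN.VVF
import Pool.Agent.H91.LIN.ALD
import Pool.Agent.H91.LIN.TRI
import Pool.Agent.H94.LIN.BIN
import Pool.Agent.H94.LIN.INT
import Pool.Agent.H95.LIN.FB1
import Pool.Agent.H95.LIN.HCO
import Pool.Agent.H97.LIN.CNT

/-!
# Realizing weight systems over rings by Vassiliev invariants (`MP_559314_gt`): the results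
-/

set_option autoImplicit false

namespace Pool.Agent.H59.LIN

theorem fin_UQ : T_UQ :=
  Pool.Agent.H16.LIN.pf_UQ Pool.Agent.H36.LIN.pf_IND

theorem fin_HC : T_HC :=
  Pool.Agent.H55.LIN.pf_HC Pool.Agent.H40.LIN.pf_HR

theorem fin_HL : T_HL :=
  Pool.Agent.H86.LIN.pf_HL Pool.Agent.H40.LIN.pf_HR fin_HC

theorem fin_HT : T_HT :=
  Pool.Agent.H80.LIN.pf_HT Pool.Agent.H40.LIN.pf_HR fin_HC fin_HL (Pool.Agent.H1.LIN.pf_HE Pool.Agent.H40.LIN.pf_HR fin_HC)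

theorem fin_EXI : T_EXI :=
  Pool.Agent.H1.LIN.pf_EXI Pool.Agent.H40.LIN.pf_HR fin_HC fin_HL fin_HT

theorem fin_S0 : T_S0 :=
  Pool.Agent.H11.LIN.pf_S0 Pool.Agent.H36.LIN.pf_IND Pool.Agent.H66.LIN.pf_NCL

theorem fin_INT : T_INT :=
  Pool.Agent.H94.LIN.pf_INT fin_EXI Pool.Agent.H66.LIN.pf_NCL fin_S0
    (Pool.Agent.H54.LIN.pf_ISQ fin_UQ Pool.Agent.H36.LIN.pf_CLA Pool.Agent.H39.LIN.CLB.pf_CLB)
    (Pool.Agent.H60.LIN.pf_CMP fin_UQ) Pool.Agent.H94.LIN.pf_BIN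

theorem fin_CAP : T_CAP :=
  Pool.Agent.H60.LIN.pf_CAP Pool.Agent.H72.LIN.pf_CAI

theorem fin_CAB : T_CAB :=
  Pool.Agent.H33.LIN.pf_CAB Pool.Agent.H72.LIN.pf_CAI fin_CAP

theorem fin_CMD : T_CMD :=
  Pool.Agent.H37.LIN.pf_CMD Pool.Agent.H66.LIN.pf_NCL Pool.Agent.H68.LIN.pf_CMA
    Pool.Agent.H7.LIN.CMB.pf_CMB Pool.Agent.H49.LIN.pf_CMC

theorem fin_SYM : T_SYM :=
  Pool.Agent.H60.LIN.pf_SYM (Pool.Agent.H20.LIN.pf_FTS fin_S0) fin_CMD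

theorem fin_FB1 : T_FB1 :=
  Pool.Agent.H95.LIN.pf_FB1 fin_SYM Pool.Agent.H49.LIN.pf_CMC

theorem fin_FB0 : T_FB0 :=
  Pool.Agent.H74.LIN.pf_FB0 fin_INT fin_SYM fin_FB1 fin_CAB
    Pool.Agent.H49.LIN.pf_CMC

theorem fin_FBA : T_FBA :=
  Pool.Agent.H59.LIN.pf_FBA fin_EXI fin_FB1 fin_FB0

theorem fin_MON : T_MON :=
  Pool.Agent.H1.LIN.pf_MON fin_CAP fin_CAB Pool.Agent.H25.LIN.pf_BR
    Pool.Agent.H49.LIN.pf_CMC fin_FBA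

theorem fin_ZED : T_ZED :=
  Pool.Agent.H78.LIN.pf_ZED Pool.Agent.H37.LIN.pf_PRS
    (Pool.Agent.H60.LIN.pf_ETA (Pool.Agent.H95.LIN.pf_HCO Pool.Agent.H56.LIN.pf_CIR))

theorem fin_HLO : T_HLO :=
  Pool.Agent.H59.LIN.pf_HLO Pool.Agent.H42.LIN.pf_TRF

theorem fin_GEX : T_GEX :=
  Pool.Agent.H45.LIN.pf_GEX (Pool.Agent.H61.LIN.pf_PHL fin_HLO)

theorem fin_HVA : T_HVA :=
  Pool.Agent.H88.LIN.pf_HVA Pool.Agent.H42.LIN.pf_TRF fin_HLO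
    Pool.Agent.H82.LIN.pf_PLV (Pool.Agent.H7.LIN.pf_VAL Pool.Agent.H88.LIN.pf_VVF)

theorem fin_PAV : T_PAV :=
  Pool.Agent.H70.LIN.pf_PAV Pool.Agent.H37.LIN.pf_PRS Pool.Agent.H82.LIN.pf_PLV
    Pool.Agent.H20.LIN.pf_CON fin_GEX fin_HVA

theorem fin_UPR : T_UPR :=
  Pool.Agent.H82.LIN.pf_UPR Pool.Agent.H37.LIN.pf_PRS Pool.Agent.H91.LIN.pf_ALD
    Pool.Agent.H82.LIN.pf_PLV Pool.Agent.H20.LIN.pf_CON fin_GEX fin_PAV

theorem fin_REP : T_REP :=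
  Pool.Agent.H20.LIN.pf_REP

theorem fin_INP : T_INP :=
  Pool.Agent.H59.LIN.pf_INP fin_MON fin_REP

theorem fin_DUA : T_DUA :=
  Pool.Agent.H63.LIN.pf_DUA fin_UPR Pool.Agent.H97.LIN.pf_CNT Pool.Agent.H91.LIN.pf_TRI
    Pool.Agent.H42.LIN.pf_FNI fin_INP

theorem fin_REA.{u} : T_REA.{u} :=
  Pool.Agent.H59.LIN.pf_REA fin_MON Pool.Agent.H42.LIN.pf_FNI fin_DUA fin_ZED

theorem fin_CMC : T_CMC :=
  Pool.Agent.H49.LIN.pf_CMC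

theorem fin_CWE : ∃ c, Conway c :=
  exists_conway fin_EXI

theorem fin_CWF : T_CWF :=
  Pool.Agent.H11.LIN.pf_CWF fin_EXI (Pool.Agent.H45.LIN.pf_CWU fin_UQ) fin_FB0 fin_SYM
    fin_CAB fin_CAP Pool.Agent.H25.LIN.pf_BR Pool.Agent.H49.LIN.pf_CMC

end Pool.Agent.H59.LIN
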