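import Pool.Agent.H59.LIN.Stmt

/-!
# The primitive coefficients of the Conway polynomial (`MP_559314_gt`)
-/

set_option autoImplicit false

namespace Pool.Agent.H59.LIN

/-- `p` are the primitive coefficients of the Conway polynomial `c`: for knots
`∇ = ∏_{j ≥ 1} (1 + z^{2j})^{p_j}`, that is, the coefficient of `z^{2k}` is the sum over the
partitions `q = (1^{m_1} 2^{m_2} …)` of `k` of the products of the binomial coefficients
`binom (p_j, m_j)`. -/
def PrimCoeff (c : (n : ℕ) → Wd n → PowerSeries ℤ) (p : ℕ → (n : ℕ) → Wd n → ℤ) : Prop :=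
  ∀ k, 1 ≤ k → ∀ n (w : Wd n), Knot w →
    PowerSeries.coeff (2 * k) (c n w) =
      ∑ q : k.Partition, ∏ j ∈ q.parts.toFinset, Ring.choose (p j n w) (q.parts.count j)

end Pool.Agent.H59.LIN
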