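import Pool.Agent.H59.LIN.Fin
import Pool.Agent.H59.LIN.Stmt2

/-!
# The primitive coefficients of the Conway polynomial modulo two (`MP_559314_gt`)
-/

set_option autoImplicit false

open Finset Polynomial

namespace Pool.Agent.H59.LIN.PCO

/-! ### degrees -/

theorem Dif_add {α : Type} [DecidableEq α] (A : Finset α) (F G : (α → Bool) → ℤ) (ε : α → Bool) :
    Dif A (fun ε => F ε + G ε) ε = Dif A F ε + Dif A G ε := by
  unfold Dif
  rw [← Finset.sum_add_distrib]
  exact Finset.sum_congr rfl fun S _ => mul_add _ _ _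

theorem Dif_smul {α : Type} [DecidableEq α] (A : Finset α) (c : ℤ) (F : (α → Bool) → ℤ)
    (ε : α → Bool) : Dif A (fun ε => c * F ε) ε = c * Dif A F ε := by
  unfold Dif
  rw [Finset.mul_sum]
  refine Finset.sum_congr rfl fun S _ => ?_
  ring

theorem Dg_add {α : Type} [DecidableEq α] {F G : (α → Bool) → ℤ} {m : ℕ} (hF : Dg F m)
    (hG : Dg G m) : Dg (fun ε => F ε + G ε) m := by
  intro A ε hA
  rw [Dif_add, hF A ε hA, hG A ε hA, add_zero]

theorem Dg_smul {α : Type} [DecidableEq α] {F : (α → Bool) → ℤ} {m : ℕ} (c : ℤ) (hF : Dg F m) :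
    Dg (fun ε => c * F ε) m := by
  intro A ε hA
  rw [Dif_smul, hF A ε hA, mul_zero]

theorem Dg_const {α : Type} [DecidableEq α] (c : ℤ) (m : ℕ) :
    Dg (fun _ : α → Bool => c) m := by
  intro A ε hA
  have h1 := Pool.Agent.H1.LIN.Dif_one (K := ℤ) A ε
  rw [if_neg (by rintro rfl; simp at hA)] at h1
  have h2 := Dif_smul A c (fun _ => (1 : ℤ)) ε
  rw [h1, mul_zero] at h2
  simpa using h2

/-- integer valued invariants of degree at most `m` -/
def IV (v : (n : ℕ) → Wd n → ℤ) (m : ℕ) : Prop :=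
  KInv v ∧ ∀ n (w : SWd n) d (D : CD d) (t : Fin d → ℕ), Knot w → Function.Injective t →
    gauss w = List.ofFn (fun x => t (D x).1) → Dg (cb (v n) w t) m

theorem IV.mono {v : (n : ℕ) → Wd n → ℤ} {m m' : ℕ} (h : IV v m) (hm : m ≤ m') : IV v m' :=
  ⟨h.1, fun n w d D t h1 h2 h3 A ε hA => h.2 n w d D t h1 h2 h3 A ε (lt_of_le_of_lt hm hA)⟩

theorem IV.add {u v : (n : ℕ) → Wd n → ℤ} {m : ℕ} (hu : IV u m) (hv : IV v m) :
    IV (fun n w => u n w + v n w) m := by
  refine ⟨fun x y h hx => ?_, fun n w d D t h1 h2 h3 => ?_⟩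
  · change u x.1 x.2 + v x.1 x.2 = u y.1 y.2 + v y.1 y.2
    rw [hu.1 x y h hx, hv.1 x y h hx]
  · exact Dg_add (hu.2 n w d D t h1 h2 h3) (hv.2 n w d D t h1 h2 h3)

theorem IV.smul {v : (n : ℕ) → Wd n → ℤ} {m : ℕ} (c : ℤ) (hv : IV v m) :
    IV (fun n w => c * v n w) m := by
  refine ⟨fun x y h hx => ?_, fun n w d D t h1 h2 h3 => ?_⟩
  · change c * v x.1 x.2 = c * v y.1 y.2
    rw [hv.1 x y h hx]
  · exact Dg_smul c (hv.2 n w d D t h1 h2 h3)

theorem IV.sub {u v : (n : ℕ) → Wd n → ℤ} {m : ℕ} (hu : IV u m) (hv : IV v m) :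
    IV (fun n w => u n w - v n w) m := by
  have h := hu.add (hv.smul (-1))
  have e : (fun n w => u n w + -1 * v n w) = fun n (w : Wd n) => u n w - v n w := by
    funext n w
    ring
  rwa [e] at h

theorem IV.mul {u v : (n : ℕ) → Wd n → ℤ} {a b : ℕ} (hu : IV u a) (hv : IV v b) :
    IV (fun n w => u n w * v n w) (a + b) := by
  refine ⟨fun x y h hx => ?_, fun n w d D t h1 h2 h3 => ?_⟩
  · change u x.1 x.2 * v x.1 x.2 = u y.1 y.2 * v y.1 y.2
    rw [hu.1 x y h hx, hv.1 x y h hx]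
  · exact (fin_CAP (Fin d) ℤ (cb (u n) w t) (cb (v n) w t) a b (hu.2 n w d D t h1 h2 h3)
      (hv.2 n w d D t h1 h2 h3)).1

theorem IV.const (c : ℤ) (m : ℕ) : IV (fun _ _ => c) m :=
  ⟨fun _ _ _ _ => rfl, fun _ _ _ _ _ _ _ _ => Dg_const c m⟩

theorem IV.choose {v : (n : ℕ) → Wd n → ℤ} {a : ℕ} (k : ℕ) (ha : 1 ≤ a) (hv : IV v a) :
    IV (fun n w => Ring.choose (v n w) k) (a * k) := by
  refine ⟨fun x y h hx => ?_, fun n w d D t h1 h2 h3 => ?_⟩
  · change Ring.choose (v x.1 x.2) k = Ring.choose (v y.1 y.2) k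
    rw [hv.1 x y h hx]
  · have h4 := (fin_CAB (Fin d) (cb (v n) w t) a 0 k ha (hv.2 n w d D t h1 h2 h3)).1
    simp only [add_zero] at h4
    exact h4

theorem IV.sum {ι : Type} (s : Finset ι) (u : ι → (n : ℕ) → Wd n → ℤ) (m : ℕ)
    (h : ∀ i ∈ s, IV (u i) m) : IV (fun n w => ∑ i ∈ s, u i n w) m := by
  classical
  induction s using Finset.induction_on with
  | empty =>
    simp only [Finset.sum_empty]
    exact IV.const 0 m
  | insert a s ha ih =>
    simp only [Finset.sum_insert ha]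
    exact (h a (mem_insert_self _ _)).add (ih fun i hi => h i (mem_insert_of_mem hi))

theorem IV.prod {ι : Type} (s : Finset ι) (u : ι → (n : ℕ) → Wd n → ℤ) (m : ι → ℕ)
    (h : ∀ i ∈ s, IV (u i) (m i)) : IV (fun n w => ∏ i ∈ s, u i n w) (∑ i ∈ s, m i) := by
  classical
  induction s using Finset.induction_on with
  | empty =>
    simp only [Finset.prod_empty, Finset.sum_empty]
    exact IV.const 1 0
  | insert a s ha ih =>
    simp only [Finset.prod_insert ha, Finset.sum_insert ha]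
    exact (h a (mem_insert_self _ _)).mul (ih fun i hi => h i (mem_insert_of_mem hi))

/-- half of an even invariant -/
theorem IV.half {v f : (n : ℕ) → Wd n → ℤ} {m : ℕ} (hv : IV v m)
    (h : ∀ n w, v n w = 2 * f n w) : IV f m := by
  refine ⟨fun x y hxy hx => ?_, fun n w d D t h1 h2 h3 A ε hA => ?_⟩
  · have h4 := hv.1 x y hxy hx
    rw [h, h] at h4
    omega
  · have h4 := hv.2 n w d D t h1 h2 h3 A ε hA
    have h5 : cb (v n) w t = fun ε => 2 * cb (f n) w t ε := by
      funext ε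
      exact h n _
    rw [h5, Dif_smul] at h4
    omega

theorem IV.degLE {v : (n : ℕ) → Wd n → ℤ} {m : ℕ} (hv : IV v m) : DegLE v m := by
  intro n w hw hlt
  obtain ⟨D, t, ht, hg⟩ := fin_CMC.2.1 n w hw
  have hdb := fin_CMC.1 n w _ D t hw ht hg
  rw [Pool.Agent.H25.LIN.pf_BR.1 ℤ n (v n) w (dbl w) t (fun _ => true) ht hdb]
  refine hv.2 n w (dbl w) D t hw ht hg univ _ ?_
  rw [Finset.card_univ, Fintype.card_fin]
  exact hlt

/-! ### parity -/

/-- `v` is modulo two an integer valued invariant of degree at most `m` -/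
def Low (v : (n : ℕ) → Wd n → ℤ) (m : ℕ) : Prop :=
  ∃ g, IV g m ∧ ∀ n w, (2 : ℤ) ∣ v n w - g n w

theorem IV.low {v : (n : ℕ) → Wd n → ℤ} {m : ℕ} (h : IV v m) : Low v m :=
  ⟨v, h, fun n w => by rw [sub_self]; exact dvd_zero 2⟩

theorem Low.mono {v : (n : ℕ) → Wd n → ℤ} {m m' : ℕ} (h : Low v m) (hm : m ≤ m') : Low v m' := by
  obtain ⟨g, h1, h2⟩ := h
  exact ⟨g, h1.mono hm, h2⟩

theorem Low.add {u v : (n : ℕ) → Wd n → ℤ} {m : ℕ} (hu : Low u m) (hv : Low v m) :
    Low (fun n w => u n w + v n w) m := by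
  obtain ⟨g, h1, h2⟩ := hu
  obtain ⟨g', h1', h2'⟩ := hv
  refine ⟨_, h1.add h1', fun n w => ?_⟩
  have := h2 n w
  have := h2' n w
  change (2 : ℤ) ∣ u n w + v n w - (g n w + g' n w)
  omega

theorem Low.neg {v : (n : ℕ) → Wd n → ℤ} {m : ℕ} (hv : Low v m) :
    Low (fun n w => - v n w) m := by
  obtain ⟨g, h1, h2⟩ := hv
  refine ⟨_, h1, fun n w => ?_⟩
  have := h2 n w
  change (2 : ℤ) ∣ - v n w - g n w
  omega

theorem Low.mul {u v : (n : ℕ) → Wd n → ℤ} {a b : ℕ} (hu : Low u a) (hv : Low v b) :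
    Low (fun n w => u n w * v n w) (a + b) := by
  obtain ⟨g, h1, h2⟩ := hu
  obtain ⟨g', h1', h2'⟩ := hv
  refine ⟨_, h1.mul h1', fun n w => ?_⟩
  obtain ⟨x, hx⟩ := h2 n w
  obtain ⟨y, hy⟩ := h2' n w
  refine ⟨x * v n w + g n w * y, ?_⟩
  have e1 : u n w = g n w + 2 * x := by linarith
  have e2 : v n w = g' n w + 2 * y := by linarith
  change u n w * v n w - g n w * g' n w = _
  rw [e1, e2]
  ring

theorem Low.sum {ι : Type} (s : Finset ι) (u : ι → (n : ℕ) → Wd n → ℤ) (m : ℕ)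
    (h : ∀ i ∈ s, Low (u i) m) : Low (fun n w => ∑ i ∈ s, u i n w) m := by
  classical
  induction s using Finset.induction_on with
  | empty =>
    simp only [Finset.sum_empty]
    exact (IV.const 0 m).low
  | insert a s ha ih =>
    simp only [Finset.sum_insert ha]
    exact (h a (mem_insert_self _ _)).add (ih fun i hi => h i (mem_insert_of_mem hi))

/-! ### binomial coefficients modulo two -/

theorem sq2 (x : ZMod 2) : x * x = x := by
  revert x
  decide

theorem choose_double (f : ℤ) (i : ℕ) :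
    ((Ring.choose (f + f) i : ℤ) : ZMod 2) =
      if Even i then ((Ring.choose f (i / 2) : ℤ) : ZMod 2) else 0 := by
  rw [Ring.add_choose_eq i (Commute.refl f)]
  push_cast
  rw [← Finset.sum_filter_add_sum_filter_not (antidiagonal i) (fun x => x.1 = x.2)]
  have h1 : ∑ x ∈ (antidiagonal i).filter (fun x => ¬ x.1 = x.2),
      ((Ring.choose f x.1 : ℤ) : ZMod 2) * ((Ring.choose f x.2 : ℤ) : ZMod 2) = 0 := by
    refine Finset.sum_involution (fun x _ => x.swap) ?_ ?_ ?_ ?_
    · rintro ⟨a, b⟩ _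
      simp only [Prod.fst_swap, Prod.snd_swap]
      rw [mul_comm ((Ring.choose f b : ℤ) : ZMod 2)]
      exact CharTwo.add_self_eq_zero _
    · rintro ⟨a, b⟩ hx _ he
      simp only [mem_filter] at hx
      simp only [Prod.swap_prod_mk, Prod.mk.injEq] at he
      exact hx.2 he.2
    · rintro ⟨a, b⟩ hx
      simp only [mem_filter, HasAntidiagonal.mem_antidiagonal, Prod.swap_prod_mk] at hx ⊢
      exact ⟨by omega, fun h => hx.2 h.symm⟩
    · rintro ⟨a, b⟩ _
      rfl
  rw [h1, add_zero]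
  split_ifs with hi
  · obtain ⟨k, hk⟩ := hi
    have h2 : (antidiagonal i).filter (fun x => x.1 = x.2) = {(k, k)} := by
      ext ⟨a, b⟩
      simp only [mem_filter, HasAntidiagonal.mem_antidiagonal, mem_singleton, Prod.mk.injEq]
      omega
    rw [h2, Finset.sum_singleton, sq2]
    have : i / 2 = k := by omega
    rw [this]
  · have h2 : (antidiagonal i).filter (fun x => x.1 = x.2) = ∅ := by
      ext ⟨a, b⟩
      simp only [mem_filter, HasAntidiagonal.mem_antidiagonal, notMem_empty, iff_false, not_and]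
      intro h3 h4
      exact hi ⟨a, by omega⟩
    rw [h2, Finset.sum_empty]

theorem choose_mod (g f : ℤ) (m : ℕ) :
    (2 : ℤ) ∣ Ring.choose (g + 2 * f) m -
      ∑ l ∈ range (m / 2 + 1), Ring.choose g (m - 2 * l) * Ring.choose f l := by
  have h0 := (ZMod.intCast_zmod_eq_zero_iff_dvd (Ring.choose (g + 2 * f) m -
      ∑ l ∈ range (m / 2 + 1), Ring.choose g (m - 2 * l) * Ring.choose f l) 2).1
  refine h0 ?_
  push_cast
  rw [sub_eq_zero, two_mul, Ring.add_choose_eq m (Commute.all g (f + f))]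
  push_cast
  rw [Finset.sum_congr rfl fun x _ => by rw [choose_double]]
  rw [Finset.Nat.sum_antidiagonal_eq_sum_range_succ_mk]
  simp only [mul_ite, mul_zero]
  rw [← Finset.sum_filter]
  symm
  refine Finset.sum_nbij' (fun l => m - 2 * l) (fun a => (m - a) / 2) ?_ ?_ ?_ ?_ ?_
  · intro l hl
    simp only [mem_range, mem_filter] at hl ⊢
    refine ⟨by omega, ⟨l, by omega⟩⟩
  · intro a ha
    simp only [mem_range, mem_filter] at ha ⊢
    omega
  · intro l hl
    simp only [mem_range] at hl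
    omega
  · intro a ha
    simp only [mem_range, mem_filter] at ha
    obtain ⟨h1, k, hk⟩ := ha
    omega
  · intro l hl
    simp only [mem_range] at hl
    have h1 : (m - (m - 2 * l)) / 2 = l := by omega
    rw [h1]

theorem Low.choose {v : (n : ℕ) → Wd n → ℤ} {a : ℕ} (m : ℕ) (ha : 2 ≤ a) (hv : IV v a)
    (hl : Low v (a - 1)) : Low (fun n w => Ring.choose (v n w) m) (a * m - m) := by
  obtain ⟨g, h1, h2⟩ := hl
  choose f hf using h2
  have hf1 : IV f a := (hv.sub (h1.mono (Nat.sub_le a 1))).half hf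
  refine ⟨fun n w => ∑ l ∈ range (m / 2 + 1),
    Ring.choose (g n w) (m - 2 * l) * Ring.choose (f n w) l, ?_, fun n w => ?_⟩
  · refine IV.sum (range (m / 2 + 1))
      (fun l n w => Ring.choose (g n w) (m - 2 * l) * Ring.choose (f n w) l) _ fun l hl => ?_
    refine ((h1.choose (m - 2 * l) (by omega)).mul (hf1.choose l (by omega))).mono ?_
    rw [mem_range] at hl
    obtain ⟨b, rfl⟩ : ∃ b, a = b + 2 := ⟨a - 2, by omega⟩
    obtain ⟨r, hr⟩ : ∃ r, m = 2 * l + r := ⟨m - 2 * l, by omega⟩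
    subst hr
    have e1 : 2 * l + r - 2 * l = r := by omega
    have e2 : b + 2 - 1 = b + 1 := by omega
    rw [e1, e2]
    have e3 : (b + 2) * (2 * l + r) - (2 * l + r) = (b + 1) * (2 * l + r) := by
      have : (b + 2) * (2 * l + r) = (b + 1) * (2 * l + r) + (2 * l + r) := by ring
      omega
    rw [e3]
    nlinarith [Nat.zero_le (b * l)]
  · have h3 := choose_mod (g n w) (f n w) m
    have h4 : g n w + 2 * f n w = v n w := by
      have := hf n w
      linarith
    rw [h4] at h3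
    exact h3

end Pool.Agent.H59.LIN.PCO
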