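import Pool.Agent.H59.LIN.PCO

/-!
# The primitive coefficients of the Conway polynomial modulo two (`MP_559314_gt`)
-/

set_option autoImplicit false

open Finset Polynomial

namespace Pool.Agent.H59.LIN.PCO

/-- the even coefficients of the Conway polynomial -/
theorem cwg {T : (n : ℕ) → Wd n → KK} (hT : Skn sK dK T) (t : ℕ) (ht : 1 ≤ t) :
    Low (fun n w => pc T (2 * (t + 1)) 0 n w - Ring.choose (pc T 2 0 n w) (t + 1))
      (2 * (t + 1) - 1) := by
  obtain ⟨f, hf1, hf2, hf3⟩ := fin_FB0 T hT t ht
  obtain ⟨a1, a2, a3⟩ := fin_SYM T hT (2 * (t + 1)) 0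
  obtain ⟨b1, b2, b3⟩ := fin_SYM T hT 2 0
  refine ⟨fun n w => pc T (2 * (t + 1)) 0 n w - Ring.choose (pc T 2 0 n w) (t + 1) -
    2 * f n w, ⟨?_, ?_⟩, fun n w => ⟨f n w, by ring⟩⟩
  · intro x y hxy hx
    have e1 := a1 x y hxy hx
    have e2 := b1 x y hxy hx
    have e3 := hf1 x y hxy hx
    simp only [e1, e2, e3]
  · intro n w d D q hw hq hg A ε hA
    have hdb := fin_CMC.1 n w d D q hw hq hg
    have c1 := fin_CAB (Fin d) (cb (pc T 2 0 n) w q) 2 0 (t + 1) (by norm_num)
      (b2 n w d q hw hq hdb)
    simp only [add_zero] at c1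
    have d1 := a2 n w d q hw hq hdb
    have d2 := hf2 n w d q hw hq hdb
    have hcb : cb (fun w => pc T (2 * (t + 1)) 0 n w - Ring.choose (pc T 2 0 n w) (t + 1) -
        2 * f n w) w q = fun ε => cb (pc T (2 * (t + 1)) 0 n) w q ε -
          Ring.choose (cb (pc T 2 0 n) w q ε) (t + 1) - 2 * cb (f n) w q ε := rfl
    have hmb : mb (0, t) = 2 * (t + 1) := by
      unfold mb
      ring
    rw [hcb]
    rcases Nat.lt_or_ge (2 * (t + 1)) A.card with hlt | hge
    · rw [Pool.Agent.H11.LIN.Dif_comb, d1 A _ hlt, c1.1 A _ hlt, d2 A _ (by rw [hmb]; exact hlt)]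
      ring
    · have hcd : A.card = 2 * (t + 1) := by omega
      have hDg : Dg (fun ε => cb (pc T (2 * (t + 1)) 0 n) w q ε -
          Ring.choose (cb (pc T 2 0 n) w q ε) (t + 1) - 2 * cb (f n) w q ε) A.card := by
        intro B ε' hB
        rw [hcd] at hB
        rw [Pool.Agent.H11.LIN.Dif_comb, d1 B _ hB, c1.1 B _ hB, d2 B _ (by rw [hmb]; exact hB)]
        ring
      rw [Pool.Agent.H72.LIN.pf_CAI (Fin d) ℤ _ A hDg ε (fun _ => true),
        Pool.Agent.H11.LIN.Dif_comb]
      have e1 := a3 n w d D q hw hq hg A
      have e2 := hf3 n w d D q hw hq hg A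
      have e3 := c1.2 A
      have e4 := Pool.Agent.H11.LIN.cast_pow (sy (cb (pc T 2 0 n) w q) 2) (eta D 2 0)
        (fun A => b3 n w d D q hw hq hg A) (t + 1) A
      rw [← e3] at e4
      rw [hmb] at e2
      unfold sy at e1 e2 e4
      simp only [hcd, if_true] at e1 e2 e4
      have e5 : phi D (0, t) A = 1 / 2 * (eta D (2 * (t + 1)) 0 A -
          ((t + 1).factorial : ℚ)⁻¹ * ((eta D 2 0) ^ (t + 1)) A) := by
        unfold phi
        rw [if_pos rfl, if_neg (by simpa using (by omega : t ≠ 0)), SF.smul_def']
        have e6 : ∀ (f g : SF (Fin d) ℚ) (A : Finset (Fin d)),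
            (f - g) A = f A - g A := fun _ _ _ => rfl
        rw [e6, SF.smul_def']
        rfl
      have hfac : ((t + 1).factorial : ℚ) ≠ 0 := by
        exact_mod_cast (Nat.factorial_pos (t + 1)).ne'
      have e7 : ((Dif A (fun ε => Ring.choose (cb (pc T 2 0 n) w q ε) (t + 1))
          (fun _ => true) : ℤ) : ℚ) =
          ((t + 1).factorial : ℚ)⁻¹ * ((eta D 2 0) ^ (t + 1)) A := by
        rw [← e4]
        push_cast
        rw [← mul_assoc, inv_mul_cancel₀ hfac, one_mul]
      have e8 : ((Dif A (cb (pc T (2 * (t + 1)) 0 n) w q) (fun _ => true) -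
          Dif A (fun ε => Ring.choose (cb (pc T 2 0 n) w q ε) (t + 1)) (fun _ => true) -
          2 * Dif A (cb (f n) w q) (fun _ => true) : ℤ) : ℚ) = 0 := by
        push_cast
        rw [e1, e7, e2, e5]
        ring
      exact_mod_cast e8

/-! ### the recursion -/

/-- the primitive coefficients of a sequence -/
noncomputable def primC (a : ℕ → ℤ) (k : ℕ) : ℤ :=
  a k - ∑ q ∈ (univ : Finset k.Partition).filter (fun q => q ≠ Nat.Partition.indiscrete k),
    ∏ j ∈ q.parts.toFinset, if _h : j < k then Ring.choose (primC a j) (q.parts.count j) else 1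
termination_by k

theorem part_lt {k : ℕ} (hk : 1 ≤ k) (q : k.Partition) (hq : q ≠ Nat.Partition.indiscrete k)
    {j : ℕ} (hj : j ∈ q.parts) : j < k := by
  have hle : j ≤ k := by
    have h1 := Multiset.single_le_sum (fun x (_ : x ∈ q.parts) => Nat.zero_le x) j hj
    rwa [q.parts_sum] at h1
  rcases Nat.lt_or_ge j k with h | h
  · exact h
  · exfalso
    have hjk : j = k := by omega
    subst hjk
    apply hq
    obtain ⟨r, hr⟩ := Multiset.exists_cons_of_mem hj
    have h1 := q.parts_sum
    rw [hr, Multiset.sum_cons] at h1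
    have h2 : r = 0 := by
      by_contra h3
      obtain ⟨x, hx⟩ := Multiset.exists_mem_of_ne_zero h3
      have h4 := q.parts_pos (show x ∈ q.parts by rw [hr]; exact Multiset.mem_cons_of_mem hx)
      have h5 := Multiset.single_le_sum (fun y (_ : y ∈ r) => Nat.zero_le y) x hx
      omega
    ext1
    rw [Nat.Partition.indiscrete_parts (by omega), hr, h2]
    rfl

theorem primC_rec (a : ℕ → ℤ) {k : ℕ} (hk : 1 ≤ k) :
    primC a k = a k -
      ∑ q ∈ (univ : Finset k.Partition).filter (fun q => q ≠ Nat.Partition.indiscrete k),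
        ∏ j ∈ q.parts.toFinset, Ring.choose (primC a j) (q.parts.count j) := by
  rw [primC]
  congr 1
  refine Finset.sum_congr rfl fun q hq => Finset.prod_congr rfl fun j hj => ?_
  rw [dif_pos (part_lt hk q (mem_filter.1 hq).2 (Multiset.mem_toFinset.1 hj))]

theorem primC_sum (a : ℕ → ℤ) {k : ℕ} (hk : 1 ≤ k) :
    a k = ∑ q : k.Partition, ∏ j ∈ q.parts.toFinset,
      Ring.choose (primC a j) (q.parts.count j) := by
  have h1 := primC_rec a hk
  rw [← Finset.sum_filter_add_sum_filter_not univ (fun q => q ≠ Nat.Partition.indiscrete k)]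
  have h2 : (univ : Finset k.Partition).filter (fun q => ¬ q ≠ Nat.Partition.indiscrete k) =
      {Nat.Partition.indiscrete k} := by
    ext q
    simp
  rw [h2, Finset.sum_singleton, Nat.Partition.indiscrete_parts (by omega)]
  simp only [Multiset.toFinset_singleton, Finset.prod_singleton, Multiset.count_singleton_self]
  rw [Ring.choose_one_right, h1]
  ring

theorem wt_parts {k : ℕ} (q : k.Partition) :
    ∑ j ∈ q.parts.toFinset, 2 * j * q.parts.count j = 2 * k := by
  have h1 := q.parts_sum
  rw [Finset.sum_multiset_count] at h1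
  have h2 : ∑ j ∈ q.parts.toFinset, 2 * j * q.parts.count j =
      2 * ∑ j ∈ q.parts.toFinset, q.parts.count j • j := by
    rw [Finset.mul_sum]
    refine Finset.sum_congr rfl fun j _ => ?_
    rw [smul_eq_mul]
    ring
  exact h2.trans (congrArg (fun x => 2 * x) h1)

theorem iv_pc {T : (n : ℕ) → Wd n → KK} (hT : Skn sK dK T) (m : ℕ) : IV (pc T m 0) m := by
  obtain ⟨a1, a2, a3⟩ := fin_SYM T hT m 0
  exact ⟨a1, fun n w d D t hw ht hg => a2 n w d t hw ht (fin_CMC.1 n w d D t hw ht hg)⟩

/-- the primitive coefficients are invariants of degree `2 k` -/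
theorem iv_prim {T : (n : ℕ) → Wd n → KK} (hT : Skn sK dK T) : ∀ k, 1 ≤ k →
    IV (fun n w => primC (fun j => pc T (2 * j) 0 n w) k) (2 * k) := by
  intro k
  induction k using Nat.strong_induction_on with
  | _ k ih =>
    intro hk
    have e : (fun n (w : Wd n) => primC (fun j => pc T (2 * j) 0 n w) k) = fun n w =>
        pc T (2 * k) 0 n w -
          ∑ q ∈ (univ : Finset k.Partition).filter (fun q => q ≠ Nat.Partition.indiscrete k),
            ∏ j ∈ q.parts.toFinset,
              Ring.choose (primC (fun j => pc T (2 * j) 0 n w) j) (q.parts.count j) := by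
      funext n w
      exact primC_rec _ hk
    rw [e]
    refine (iv_pc hT (2 * k)).sub (IV.sum _ (fun (q : k.Partition) n w => ∏ j ∈ q.parts.toFinset,
      Ring.choose (primC (fun j => pc T (2 * j) 0 n w) j) (q.parts.count j)) _ fun q hq => ?_)
    rw [← wt_parts q]
    refine IV.prod _ (fun j n w => Ring.choose (primC (fun j => pc T (2 * j) 0 n w) j)
      (q.parts.count j)) _ fun j hj => ?_
    have hj' := Multiset.mem_toFinset.1 hj
    have hpos := q.parts_pos hj'
    exact (ih j (part_lt hk q (mem_filter.1 hq).2 hj') hpos).choose (q.parts.count j) (by omega)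

/-- The primitive coefficients are modulo two invariants of degree `2 k - 1`. -/
theorem low_prim {T : (n : ℕ) → Wd n → KK} (hT : Skn sK dK T) : ∀ k, 2 ≤ k →
    Low (fun n w => primC (fun j => pc T (2 * j) 0 n w) k) (2 * k - 1) := by
  intro k
  induction k using Nat.strong_induction_on with
  | _ k ih =>
    intro hk
    have e : (fun n (w : Wd n) => primC (fun j => pc T (2 * j) 0 n w) k) = fun n w =>
        (pc T (2 * k) 0 n w - Ring.choose (pc T 2 0 n w) k) +
          - ∑ q ∈ ((univ : Finset k.Partition).filter
              (fun q => q ≠ Nat.Partition.indiscrete k)).filter (fun q => ¬ ∀ j ∈ q.parts, j = 1),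
            ∏ j ∈ q.parts.toFinset,
              Ring.choose (primC (fun j => pc T (2 * j) 0 n w) j) (q.parts.count j) := by
      funext n w
      rw [primC_rec _ (by omega), ← Finset.sum_filter_add_sum_filter_not
        ((univ : Finset k.Partition).filter (fun q => q ≠ Nat.Partition.indiscrete k))
        (fun q => ∀ j ∈ q.parts, j = 1)]
      have h1 : primC (fun j => pc T (2 * j) 0 n w) 1 = pc T 2 0 n w := by
        have h2 := primC_sum (fun j => pc T (2 * j) 0 n w) (le_refl 1)
        rw [show (univ : Finset (Nat.Partition 1)) = {Nat.Partition.indiscrete 1} from by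
          ext q
          simp only [mem_univ, mem_singleton, true_iff]
          exact Subsingleton.elim _ _, Finset.sum_singleton,
          Nat.Partition.indiscrete_parts (by omega)] at h2
        simp only [Multiset.toFinset_singleton, Finset.prod_singleton,
          Multiset.count_singleton_self] at h2
        rw [Ring.choose_one_right] at h2
        exact h2.symm
      have h3 : ∑ q ∈ ((univ : Finset k.Partition).filter
          (fun q => q ≠ Nat.Partition.indiscrete k)).filter (fun q => ∀ j ∈ q.parts, j = 1),
            ∏ j ∈ q.parts.toFinset,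
              Ring.choose (primC (fun j => pc T (2 * j) 0 n w) j) (q.parts.count j) =
          Ring.choose (pc T 2 0 n w) k := by
        have hrep : ∀ q : k.Partition, (∀ j ∈ q.parts, j = 1) →
            q.parts = Multiset.replicate k 1 := by
          intro q hq
          have h4 := Multiset.eq_replicate_card.2 hq
          have h5 := q.parts_sum
          rw [h4, Multiset.sum_replicate, smul_eq_mul, mul_one] at h5
          rw [h4, h5]
        let q0 : k.Partition := ⟨Multiset.replicate k 1, fun {j} hj => by
          rw [Multiset.eq_of_mem_replicate hj]; exact Nat.one_pos, by simp⟩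
        rw [Finset.sum_eq_single q0]
        · change ∏ j ∈ (Multiset.replicate k 1).toFinset, Ring.choose
            (primC (fun j => pc T (2 * j) 0 n w) j) ((Multiset.replicate k 1).count j) = _
          have h6 : (Multiset.replicate k 1).toFinset = {1} := by
            ext j
            rw [Multiset.mem_toFinset, Multiset.mem_replicate, mem_singleton]
            constructor
            · exact fun h => h.2
            · exact fun h => ⟨by omega, h⟩
          rw [h6, Finset.prod_singleton, Multiset.count_replicate_self, h1]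
        · intro q hq hne
          exfalso
          apply hne
          ext1
          exact hrep q (mem_filter.1 hq).2
        · intro hq
          exfalso
          apply hq
          rw [mem_filter, mem_filter]
          refine ⟨⟨mem_univ _, ?_⟩, fun j hj => Multiset.eq_of_mem_replicate hj⟩
          intro h7
          have h8 := congrArg Nat.Partition.parts h7
          rw [Nat.Partition.indiscrete_parts (by omega)] at h8
          have h9 := congrArg Multiset.card h8
          change Multiset.card (Multiset.replicate k 1) = _ at h9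
          rw [Multiset.card_replicate, Multiset.card_singleton] at h9
          omega
      rw [h3]
      ring
    rw [e]
    obtain ⟨t, rfl⟩ : ∃ t, k = t + 1 := ⟨k - 1, by omega⟩
    refine (cwg hT t (by omega)).add (Low.neg (Low.sum _ (fun (q : (t + 1).Partition) n w =>
      ∏ j ∈ q.parts.toFinset, Ring.choose (primC (fun j => pc T (2 * j) 0 n w) j)
        (q.parts.count j)) _ fun q hq => ?_))
    rw [mem_filter, mem_filter] at hq
    obtain ⟨⟨-, hq1⟩, hq2⟩ := hq
    push Not at hq2
    obtain ⟨j, hj, hj1⟩ := hq2
    have hjpos := q.parts_pos hj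
    have hjlt := part_lt (by omega) q hq1 hj
    have hjf : j ∈ q.parts.toFinset := Multiset.mem_toFinset.2 hj
    have hl := (Low.choose (q.parts.count j) (by omega) (iv_prim hT j (by omega))
      (ih j hjlt (by omega)))
    have hr : IV (fun n w => ∏ i ∈ q.parts.toFinset.erase j,
        Ring.choose (primC (fun j => pc T (2 * j) 0 n w) i) (q.parts.count i))
        (∑ i ∈ q.parts.toFinset.erase j, 2 * i * q.parts.count i) := by
      refine IV.prod _ (fun i n w => Ring.choose (primC (fun j => pc T (2 * j) 0 n w) i)
        (q.parts.count i)) _ fun i hi => ?_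
      have hi' := Multiset.mem_toFinset.1 (mem_of_mem_erase hi)
      have hpos := q.parts_pos hi'
      exact (iv_prim hT i hpos).choose (q.parts.count i) (by omega)
    have hp := Low.mul hl hr.low
    have e2 : (fun n (w : Wd n) => ∏ i ∈ q.parts.toFinset,
        Ring.choose (primC (fun j => pc T (2 * j) 0 n w) i) (q.parts.count i)) = fun n w =>
        Ring.choose (primC (fun j => pc T (2 * j) 0 n w) j) (q.parts.count j) *
        ∏ i ∈ q.parts.toFinset.erase j,
          Ring.choose (primC (fun j => pc T (2 * j) 0 n w) i) (q.parts.count i) := by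
      funext n w
      exact (Finset.mul_prod_erase _ _ hjf).symm
    rw [e2]
    refine hp.mono ?_
    have h10 := wt_parts q
    rw [← Finset.add_sum_erase _ _ hjf] at h10
    have h11 : 1 ≤ q.parts.count j := Multiset.one_le_count_iff_mem.2 hj
    have h12 : q.parts.count j ≤ 2 * j * q.parts.count j := Nat.le_mul_of_pos_left _ (by omega)
    omega

/-- The primitive coefficients of the Conway polynomial. -/
theorem main : ∃ (c : (n : ℕ) → Wd n → PowerSeries ℤ) (p : ℕ → (n : ℕ) → Wd n → ℤ),
    Conway c ∧ PrimCoeff c p ∧ ∀ k, 2 ≤ k → ∃ g : (n : ℕ) → Wd n → ℤ, KInv g ∧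
      DegLE g (2 * k - 1) ∧ ∀ n (w : Wd n), Knot w → (2 : ℤ) ∣ p k n w - g n w := by
  obtain ⟨c, hc⟩ := fin_CWE
  obtain ⟨T, hT⟩ := exK fin_EXI
  have hcT := Pool.Agent.H45.LIN.pf_CWU fin_UQ T hT c hc
  refine ⟨c, fun k n w => primC (fun j => pc T (2 * j) 0 n w) k, hc, ?_, ?_⟩
  · intro k hk n w _
    rw [hcT]
    exact primC_sum (fun j => pc T (2 * j) 0 n w) hk
  · intro k hk
    obtain ⟨g, hg1, hg2⟩ := low_prim hT k hk
    exact ⟨g, hg1.1, hg1.degLE, fun n w _ => hg2 n w⟩

end Pool.Agent.H59.LIN.PCO
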