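import Mathlib

/-!
# Realizing weight systems over rings by Vassiliev invariants (`MP_559314_gt`): definitions

Knots are closures of braids (Alexander), two braids have isotopic closures if and only if they are
Markov equivalent (Markov), and singular knots are closures of singular braids (Birman).
-/

set_option autoImplicit false

open Finset Polynomial

namespace Pool.Agent.H59.LIN

/-! ### braid words and knots -/

/-- Braid words on `n + 1` strands: `(i, true)` is the generator `σ_i`, a positive crossing of the
strands at the positions `i` and `i + 1`, and `(i, false)` is its inverse. -/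
abbrev Wd (n : ℕ) : Type := List (Fin n × Bool)

/-- Singular braid words: `(i, none)` is a double point of the strands at the positions `i` and
`i + 1`. -/
abbrev SWd (n : ℕ) : Type := List (Fin n × Option Bool)

/-- the transposition of the positions `i` and `i + 1` -/
def tr {n : ℕ} (i : Fin n) : Equiv.Perm (Fin (n + 1)) := Equiv.swap i.castSucc i.succ

/-- the position at the end of the strand which starts at the position `p` -/
def run {n : ℕ} {α : Type} : List (Fin n × α) → Fin (n + 1) → Fin (n + 1)
  | [], p => p
  | x :: w, p => run w (tr x.1 p)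

/-- The closure of the word is connected. -/
def Knot {n : ℕ} {α : Type} (w : List (Fin n × α)) : Prop := ∀ p, ∃ k, (run w)^[k] 0 = p

/-- one more strand -/
def up {n : ℕ} (w : Wd n) : Wd (n + 1) := w.map fun x => (x.1.castSucc, x.2)

/-- The moves: the relations of the braid groups, conjugation, stabilization. -/
inductive Mv : (Σ n, Wd n) → (Σ n, Wd n) → Prop
  | cancel (n : ℕ) (u v : Wd n) (i : Fin n) (b : Bool) :
      Mv ⟨n, u ++ (i, b) :: (i, !b) :: v⟩ ⟨n, u ++ v⟩
  | far (n : ℕ) (u v : Wd n) (i j : Fin n) (b c : Bool) : (i : ℕ) + 1 < j →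
      Mv ⟨n, u ++ (i, b) :: (j, c) :: v⟩ ⟨n, u ++ (j, c) :: (i, b) :: v⟩
  | braid (n : ℕ) (u v : Wd n) (i j : Fin n) : (j : ℕ) = i + 1 →
      Mv ⟨n, u ++ (i, true) :: (j, true) :: (i, true) :: v⟩
        ⟨n, u ++ (j, true) :: (i, true) :: (j, true) :: v⟩
  | conj (n : ℕ) (u v : Wd n) : Mv ⟨n, u ++ v⟩ ⟨n, v ++ u⟩
  | stab (n : ℕ) (w : Wd n) (b : Bool) : Mv ⟨n, w⟩ ⟨n + 1, up w ++ [(Fin.last n, b)]⟩

/-- Knot invariants: functions on braid words which do not change under the moves of words whose
closure is a knot. -/
def KInv {R : Type*} (v : (n : ℕ) → Wd n → R) : Prop :=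
  ∀ x y : Σ n, Wd n, Mv x y → Knot x.2 → v x.1 x.2 = v y.1 y.2

/-- The extension of `v` to the singular word `u w`: each double point of `w` is the difference of
the positive and the negative crossing. -/
def ext {R : Type*} [Sub R] {n : ℕ} (v : Wd n → R) : Wd n → SWd n → R
  | u, [] => v u
  | u, (i, some b) :: w => ext v (u ++ [(i, b)]) w
  | u, (i, none) :: w => ext v (u ++ [(i, true)]) w - ext v (u ++ [(i, false)]) w

/-- the number of double points -/
def dbl {n : ℕ} (w : SWd n) : ℕ := w.countP fun x => x.2.isNone

/-- `v` is a Vassiliev invariant of degree at most `d`. -/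
def DegLE {R : Type*} [Ring R] (v : (n : ℕ) → Wd n → R) (d : ℕ) : Prop :=
  ∀ (n : ℕ) (w : SWd n), Knot w → d < dbl w → ext (v n) [] w = 0

/-! ### chord diagrams -/

/-- Chord diagrams with `d` chords on an oriented circle: the endpoints are `0, …, 2 d - 1` in the
cyclic order, and the endpoint `x` belongs to the chord `(D x).1`. -/
abbrev CD (d : ℕ) : Type := Fin (2 * d) ≃ Fin d × Bool

/-- the numbers of the double points which the strand with the initial position `p` meets; the
letters are numbered from `k` -/
def meets {n : ℕ} : ℕ → SWd n → Fin (n + 1) → List ℕ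
  | _, [], _ => []
  | k, (i, s) :: w, p =>
      (if s = none ∧ (p = i.castSucc ∨ p = i.succ) then [k] else []) ++ meets (k + 1) w (tr i p)

/-- the double points which one meets when one runs once along the closure of `w` -/
def gauss {n : ℕ} (w : SWd n) : List ℕ :=
  (List.range (n + 1)).flatMap fun j => meets 0 w ((run w)^[j] 0)

/-- `D` is the chord diagram of the singular knot `w`. -/
def Rep {n d : ℕ} (w : SWd n) (D : CD d) : Prop :=
  ∃ t : Fin d → ℕ, Function.Injective t ∧ gauss w = List.ofFn fun x => t (D x).1

/-- The invariant `v` induces the weight system `W`. -/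
def Induces {R : Type*} [Ring R] {d : ℕ} (v : (n : ℕ) → Wd n → R) (W : CD d → R) : Prop :=
  ∀ (n : ℕ) (w : SWd n) (D : CD d), Knot w → Rep w D → ext (v n) [] w = W D

/-! ### the HOMFLYPT weight system -/

/-- the number of classes for the relation generated by `x ∼ f x` -/
noncomputable def ncl {α : Type} (f : α → α) : ℕ := Nat.card (Quot fun x y => y = f x)

/-- the other endpoint of the chord of `x` if this chord belongs to `B` -/
def jmp {d : ℕ} (D : CD d) (B : Finset (Fin d)) (x : Fin (2 * d)) : Fin (2 * d) :=
  if (D x).1 ∈ B then D.symm ((D x).1, !(D x).2) else x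

/-- the number of circles after surgery along the chords of `B` (the arcs are numbered by their
endpoints; `0` if there are no chords) -/
noncomputable def circ {d : ℕ} (D : CD d) (B : Finset (Fin d)) : ℕ :=
  ncl fun x => finRotate (2 * d) (jmp D B x)

/-- the HOMFLYPT weight system of the chords in `A` -/
noncomputable def hh {d : ℕ} (D : CD d) (A : Finset (Fin d)) : ℤ[X] :=
  ∑ B ∈ A.powerset, (-X) ^ (A.card - B.card) * X ^ (circ D B - 1)

/-- the chords with the colour `i` -/
def fbr {d r : ℕ} (κ : Fin d → Fin r) (i : Fin r) : Finset (Fin d) := univ.filter fun a => κ a = i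

/-- the convolution product of the coefficients `j i` of the HOMFLYPT weight systems of degree
`m i` -/
noncomputable def prodH {d : ℕ} (D : CD d) {r : ℕ} (m j : Fin r → ℕ) : ℤ :=
  ∑ κ : Fin d → Fin r, if (∀ i, (fbr κ i).card = m i) then ∏ i, (hh D (fbr κ i)).coeff (j i) else 0

/-- `W` factors through the HOMFLYPT weight systems: `W` vanishes on all integral combinations of
chord diagrams on which all products of coefficients of the HOMFLYPT weight system vanish. -/
def HType {R : Type*} [AddCommGroup R] {d : ℕ} (W : CD d → R) : Prop :=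
  ∀ c : CD d → ℤ, (∀ (r : ℕ) (m j : Fin r → ℕ), ∑ D, c D * prodH D m j = 0) →
    ∑ D, c D • W D = 0

/-! ### the Conway polynomial -/

/-- The Conway polynomial of closed braids (as a power series): the invariant of links with the
value `1` on the unknot and the skein relation `∇(+) - ∇(-) = z ∇(0)`. -/
structure Conway (c : (n : ℕ) → Wd n → PowerSeries ℤ) : Prop where
  one : c 0 [] = 1
  inv : ∀ x y : Σ n, Wd n, Mv x y → c x.1 x.2 = c y.1 y.2
  skein : ∀ (n : ℕ) (u v : Wd n) (i : Fin n),
    c n (u ++ (i, true) :: v) - c n (u ++ (i, false) :: v) = PowerSeries.X * c n (u ++ v)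

end Pool.Agent.H59.LIN
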