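import Pool.Agent.H59.LIN.Defs

/-!
# Realizing weight systems over rings by Vassiliev invariants (`MP_559314_gt`): targets
-/

set_option autoImplicit false

open Finset Polynomial

namespace Pool.Agent.H59.LIN

/-! ### skein theory -/

/-- IND: skein induction -/
def T_IND : Prop := ∀ Q : (n : ℕ) → Wd n → Prop, Cl Q → ∀ n w, Q n w

/-- UQ: uniqueness -/
def T_UQ : Prop :=
  ∀ (K : Type) [CommRing K] (s δ κ' : K) (T T' : (n : ℕ) → Wd n → K), (1 - s * δ) * κ' = 1 →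
    Skn s δ T → Skn s δ T' → ∀ n w, T n w = T' n w

/-- HR: the relations of the right multiplications -/
def T_HR : Prop :=
  ∀ (K : Type) [CommRing K] (s κ : K) (m : ℕ),
    (∀ i < m, ∀ x, RR s κ m i (RR s κ m i x) = κ • x + s • RR s κ m i x) ∧
    (∀ i, i + 1 < m → ∀ x, RR s κ m i (RR s κ m (i + 1) (RR s κ m i x)) =
      RR s κ m (i + 1) (RR s κ m i (RR s κ m (i + 1) x))) ∧
    (∀ i j, i + 1 < j → j < m → ∀ x,
      RR s κ m i (RR s κ m j x) = RR s κ m j (RR s κ m i x))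

/-- HC: the chains `c_k` -/
def T_HC : Prop :=
  ∀ (K : Type) [CommRing K] (s κ : K) (m : ℕ),
    (∀ i < m, ∀ x, io K m (RR s κ m i x) = RR s κ (m + 1) i (io K m x)) ∧
    (∀ k ≤ m + 1, ∀ x, RC s κ (m + 1) k (io K m x) = sg K m k x) ∧
    (∀ k i, k ≤ m → i < m → ∀ x, RR s κ m i (RC s κ m k x) =
      if i + 1 < k then RC s κ m k (RR s κ m i x)
      else if i + 1 = k then RC s κ m i x
      else if i = k then κ • RC s κ m (k + 1) x + s • RC s κ m k x
      else RC s κ m k (RR s κ m (i - 1) x))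

/-- HL: the left multiplications -/
def T_HL : Prop :=
  ∀ (K : Type) [CommRing K] (s κ : K) (m : ℕ),
    (∀ i < m, ∀ x, la K m (RR s κ m i x) = RR s κ (m + 1) i (la K m x)) ∧
    (∀ i j, i < m → j < m → ∀ x,
      LL s κ m i (RR s κ m j x) = RR s κ m j (LL s κ m i x)) ∧
    (∀ i < m, LL s κ m i (eb K m) = RR s κ m i (eb K m))

/-- HE: the conditional expectation commutes with the right multiplications -/
def T_HE : Prop :=
  ∀ (K : Type) [CommRing K] (s κ δ : K) (m : ℕ), ∀ i < m, ∀ x,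
    EX s κ δ m (RR s κ (m + 1) i x) = RR s κ m i (EX s κ δ m x)

/-- HT: the trace property -/
def T_HT : Prop :=
  ∀ (K : Type) [CommRing K] (s κ δ : K), κ = 1 - s * δ → ∀ m, ∀ i < m, ∀ x,
    TT s κ δ m (LL s κ m i x) = TT s κ δ m (RR s κ m i x)

/-- EXI: existence -/
def T_EXI : Prop :=
  ∀ (K : Type) [CommRing K] (s δ κ' : K), (1 - s * δ) * κ' = 1 →
    ∃ T : (n : ℕ) → Wd n → K, Skn s δ T

/-- NCL: the components of closed braids -/
def T_NCL : Prop :=
  (∀ n (w : Wd n), ncl (run (up w)) = ncl (run w) + 1) ∧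
  (∀ n (w : Wd n) (b : Bool), ncl (run (up w ++ [(Fin.last n, b)])) = ncl (run w)) ∧
  (∀ n (u v : Wd n), ncl (run (u ++ v)) = ncl (run (v ++ u))) ∧
  (∀ n (w : Wd n), 1 ≤ ncl (run w)) ∧
  (∀ (β : Type) n (w : List (Fin n × β)), Knot w → ncl (run w) = 1)

/-- S0: the HOMFLYPT polynomial at `s = 0` -/
def T_S0 : Prop :=
  ∀ T, Skn sK dK T → ∀ n (w : Wd n),
    PowerSeries.constantCoeff (T n w) = X ^ (ncl (run w) - 1)

/-! ### the Ising evaluation -/

/-- CLA: the Ising evaluation satisfies the skein relations -/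
def T_CLA : Prop := Skn (√2 : ℝ) (√2 : ℝ) TI

/-- CLB: the square of the Ising evaluation of a knot -/
def T_CLB : Prop := ∀ n (w : Wd n), Knot w → TI n w ^ 2 = 1

/-- ISQ: the HOMFLYPT polynomial at `s = δ = √2` -/
def T_ISQ : Prop :=
  ∀ T : (n : ℕ) → Wd n → Zsqrtd 2, Skn r2 r2 T → ∀ n (w : Wd n), Knot w → T n w = 1 ∨ T n w = -1

/-- CMP: the evaluation of the power series at `s = δ = √2` -/
def T_CMP : Prop :=
  ∀ (T : (n : ℕ) → Wd n → KK) (T' : (n : ℕ) → Wd n → Zsqrtd 2), Skn sK dK T → Skn r2 r2 T' →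
    ∀ n w M, ∃ z : Zsqrtd 2, T' n w =
      ∑ m ∈ range M, (PowerSeries.coeff m (T n w)).eval₂ (Int.castRingHom _) r2 * r2 ^ m +
        r2 ^ M * z

/-- BIN: a 2-adic identity -/
def T_BIN : Prop :=
  ∀ (c : ℤ) (k : ℕ), (2 : ℤ) ^ (k + 1) ∣
    ∑ j ∈ range (k + 1), 2 ^ j * Ring.multichoose c j - (c.negOnePow : ℤ)

/-- INT: the integrality -/
def T_INT : Prop :=
  ∀ T, Skn sK dK T → ∀ n (w : Wd n), Knot w → ∀ k, (2 : ℤ) ^ (k + 1) ∣
    ∑ j ∈ range (k + 1), 2 ^ j * (ec T j n w - Ring.multichoose (ec T 1 n w) j)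

/-! ### cubes -/

/-- CAI: independence of the signs -/
def T_CAI : Prop :=
  ∀ (α K : Type) [Fintype α] [DecidableEq α] [CommRing K] (F : (α → Bool) → K) (A : Finset α),
    Dg F A.card → ∀ ε ε', Dif A F ε = Dif A F ε'

/-- CAP: products -/
def T_CAP : Prop :=
  ∀ (α K : Type) [Fintype α] [DecidableEq α] [CommRing K] (F G : (α → Bool) → K) (a b : ℕ),
    Dg F a → Dg G b →
      Dg (fun ε => F ε * G ε) (a + b) ∧ sy (fun ε => F ε * G ε) (a + b) = sy F a * sy G b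

/-- CAB: binomial coefficients -/
def T_CAB : Prop :=
  ∀ (α : Type) [Fintype α] [DecidableEq α] (F : (α → Bool) → ℤ) (a : ℕ) (c : ℤ) (k : ℕ),
    1 ≤ a → Dg F a → Dg (fun ε => Ring.choose (F ε + c) k) (a * k) ∧
      ∀ A, (k.factorial : ℤ) * sy (fun ε => Ring.choose (F ε + c) k) (a * k) A = ((sy F a) ^ k) A

/-- BR: the extension to singular words and the cubes -/
def T_BR : Prop :=
  (∀ (R : Type) [CommRing R] n (v : Wd n → R) (w : SWd n) (d : ℕ) (t : Fin d → ℕ) (ε : Fin d → Bool),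
    Function.Injective t → IsDb w t → ext v [] w = Dif univ (cb v w t) ε) ∧
  (∀ n (w : SWd n), ∃ t : Fin (dbl w) → ℕ, Function.Injective t ∧ IsDb w t)

/-- FTS: the leading coefficients of the alternating sums of the HOMFLYPT polynomial -/
def T_FTS : Prop :=
  ∀ T, Skn sK dK T → ∀ n (w : SWd n) d (t : Fin d → ℕ), Function.Injective t → IsDb w t →
    ∀ (A : Finset (Fin d)) (ε : Fin d → Bool),
      (∀ m < A.card, PowerSeries.coeff m (Dif A (cb (T n) w t) ε) = 0) ∧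
      PowerSeries.coeff A.card (Dif A (cb (T n) w t) ε) = ∑ B ∈ A.powerset,
        (-X) ^ (A.card - B.card) * X ^ (ncl (run (rmv (B.image t) 0 w)) - 1)

/-! ### chord diagrams of singular knots -/

/-- CMA: the components of a word with removed letters -/
def T_CMA : Prop :=
  ∀ n (w : SWd n) (B : Finset ℕ), w ≠ [] → ncl (stp w B) = ncl (run (rmv B 0 w))

/-- CMB: the circles of the chord diagram -/
def T_CMB : Prop :=
  ∀ n (w : SWd n) d (D : CD d) (t : Fin d → ℕ), 0 < d → Knot w → Function.Injective t →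
    gauss w = List.ofFn (fun x => t (D x).1) → ∀ B : Finset (Fin d),
      ncl (stp w (B.image t)) = circ D B

/-- CMC: the double points on the chord diagram -/
def T_CMC : Prop :=
  (∀ n (w : SWd n) d (D : CD d) (t : Fin d → ℕ), Knot w → Function.Injective t →
    gauss w = List.ofFn (fun x => t (D x).1) → IsDb w t) ∧
  (∀ n (w : SWd n), Knot w → ∃ D : CD (dbl w), Rep w D) ∧
  (∀ n (w : SWd n) d (D : CD d), Knot w → Rep w D → dbl w = d)

/-- CMD: the circles of the chord diagram and the components of the smoothings -/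
def T_CMD : Prop :=
  ∀ n (w : SWd n) d (D : CD d) (t : Fin d → ℕ), Knot w → Function.Injective t →
    gauss w = List.ofFn (fun x => t (D x).1) → IsDb w t ∧
    ∀ B : Finset (Fin d), circ D B - 1 = ncl (run (rmv (B.image t) 0 w)) - 1

/-- REP: every chord diagram is the chord diagram of a singular knot -/
def T_REP : Prop := ∀ (d : ℕ) (D : CD d), ∃ (n : ℕ) (w : SWd n), Knot w ∧ Rep w D

/-! ### the basic invariants -/

/-- SYM: the coefficients of the HOMFLYPT polynomial -/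
def T_SYM : Prop :=
  ∀ T, Skn sK dK T → ∀ m i, KInv (pc T m i) ∧ Dgr (pc T m i) m ∧
    ∀ n (w : SWd n) d (D : CD d) (t : Fin d → ℕ), Knot w → Function.Injective t →
      gauss w = List.ofFn (fun x => t (D x).1) → ∀ A : Finset (Fin d),
        ((sy (cb (pc T m i n) w t) m A : ℤ) : ℚ) = eta D m i A

/-- the basic invariant `b`: the statement -/
def Bas (b : ℕ × ℕ) (f : (n : ℕ) → Wd n → ℤ) : Prop :=
  KInv f ∧ Dgr f (mb b) ∧
    ∀ n (w : SWd n) d (D : CD d) (t : Fin d → ℕ), Knot w → Function.Injective t →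
      gauss w = List.ofFn (fun x => t (D x).1) → ∀ A : Finset (Fin d),
        ((sy (cb (f n) w t) (mb b) A : ℤ) : ℚ) = phi D b A

/-- FB1: the basic invariants with `i ≥ 1` and `(0, 0)` -/
def T_FB1 : Prop :=
  ∀ T, Skn sK dK T → (∀ b : ℕ × ℕ, 1 ≤ b.1 → ∃ f, Bas b f) ∧ Bas (0, 0) (ec T 1)

/-- FB0: the basic invariants `(0, t)` with `t ≥ 1` -/
def T_FB0 : Prop := ∀ T, Skn sK dK T → ∀ t : ℕ, 1 ≤ t → ∃ f, Bas (0, t) f

/-- FBA: all basic invariants -/
def T_FBA : Prop := ∀ b : ℕ × ℕ, ∃ f, Bas b f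

/-- MON: the products of binomial coefficients of the basic invariants -/
def T_MON : Prop :=
  ∀ ν : Multiset (ℕ × ℕ), ∃ F : (n : ℕ) → Wd n → ℤ, KInv F ∧ DegLE F (wt ν) ∧
    ∀ n (w : SWd n) (D : CD (wt ν)), Knot w → Rep w D →
      ((ext (F n) [] w : ℤ) : ℚ) = Phi D ν

/-! ### the HOMFLYPT weight system -/

/-- CIR: the number of circles changes by one -/
def T_CIR : Prop :=
  ∀ (d : ℕ) (D : CD d), 0 < d → circ D ∅ = 1 ∧ ∀ (B : Finset (Fin d)) (c : Fin d), c ∉ B →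
    (circ D (insert c B) = circ D B + 1 ∨ circ D (insert c B) + 1 = circ D B)

/-- HCO: the coefficients of the HOMFLYPT weight system -/
def T_HCO : Prop :=
  ∀ (d : ℕ) (D : CD d) (A : Finset (Fin d)),
    (A = ∅ → hh D A = 1) ∧ (A ≠ ∅ → (hh D A).eval 1 = 0) ∧
    ∀ j, (hh D A).coeff j ≠ 0 → j ≤ A.card ∧ Even (j + A.card)

/-- PRS: products of set functions -/
def T_PRS : Prop :=
  ∀ (d : ℕ) (K : Type) [CommRing K] (r : ℕ) (ψ : Fin r → SF (Fin d) K),
    (∏ p, ψ p) univ = ∑ κ : Fin d → Fin r, ∏ p, ψ p (fbr κ p)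

/-- ETA: the coefficients of the HOMFLYPT weight system are polynomials in the basic symbols -/
def T_ETA : Prop :=
  ∀ (m j : ℕ), ∃ P : MvPolynomial (ℕ × ℕ) ℚ, ∀ (d : ℕ) (D : CD d),
    eta D m j = MvPolynomial.aeval (phi D) P

/-- ZED: the products of the basic symbols span -/
def T_ZED : Prop :=
  ∀ (d : ℕ) (c : CD d → ℚ), (∀ ν, wt ν = d → ∑ D, c D * Phi D ν = 0) →
    ∀ (r : ℕ) (m j : Fin r → ℕ), ∑ D, c D * (prodH D m j : ℚ) = 0

/-- TRF: the trace formula -/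
def T_TRF : Prop :=
  ∀ (d : ℕ) (D : CD d) (B : Finset (Fin d)) (N : ℕ), 0 < d →
    ∑ I : Fin d → Fin N × Fin N, (((sub D B).map (EE I)).prod).trace =
      (N : ℤ) ^ (2 * (d - B.card) + circ D B)

/-- HLO: the HOMFLYPT weight system depends only on the sub-diagram -/
def T_HLO : Prop :=
  ∀ (d d' : ℕ) (D : CD d) (D' : CD d') (j : Fin d' ↪ Fin d) (A : Finset (Fin d')),
    sub D (A.map j) = (sub D' A).map (rel j) → hh D (A.map j) = hh D' A

/-- PHL: the basic symbols depend only on the sub-diagram -/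
def T_PHL : Prop :=
  ∀ (d d' : ℕ) (D : CD d) (D' : CD d') (j : Fin d' ↪ Fin d) (A : Finset (Fin d')) (b : ℕ × ℕ),
    sub D (A.map j) = (sub D' A).map (rel j) → phi D b (A.map j) = phi D' b A

/-! ### alternating combinations -/

/-- ALD: the alternating combination of chord diagrams -/
def T_ALD : Prop :=
  ∀ (d : ℕ) (P : List (Pl (Fin d × Bool))), (flt P).Nodup → (flt P).length = 2 * d →
    ∃ x : CD d → ℤ, Alt x P

/-- PLV: the basic places -/
def T_PLV : Prop :=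
  ∀ b : ℕ × ℕ, (flt (PL b)).Nodup ∧ (flt (PL b)).length = 2 * mb b ∧ Conn (PL b) ∧
    ∀ c : Fin (mb b), ∃ a a', Pl.pr a a' ∈ PL b ∧ a.1 ≠ a'.1 ∧ (a.1 = c ∨ a'.1 = c)

/-- CON: products of functionals on connected blocks -/
def T_CON : Prop :=
  ∀ (d r r' : ℕ) (o : Fin d → Fin r) (Bl : Fin r → List (Pl (Fin d × Bool)))
    (G : Fin r' → List (Fin d × Bool) → ℚ),
    (∀ i, ∀ a ∈ flt (Bl i), o a.1 = i) → (∀ c, ∃ β, (c, β) ∈ flt (Bl (o c))) →
    (∀ i, Conn (Bl i)) → (∀ p, G p [] = 0) →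
    (r < r' → alt (prw G) [] ((List.finRange r).flatMap Bl) = 0) ∧
    (∀ h : r' = r, alt (prw G) [] ((List.finRange r).flatMap Bl) =
      ∑ σ : Equiv.Perm (Fin r), ∏ p : Fin r', alt (G p) [] (Bl (σ (Fin.cast h p))))

/-- GEX: the basic symbols as functionals on words -/
def T_GEX : Prop :=
  ∀ (d : ℕ) (b' : ℕ × ℕ), ∃ G : List (Fin d × Bool) → ℚ, G [] = 0 ∧
    (∀ (D : CD d) A, phi D b' A = G (sub D A)) ∧
    ∀ (b : ℕ × ℕ) (j : Fin (mb b) ↪ Fin d) (x : CD (mb b) → ℤ), Alt x (PL b) →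
      alt G [] ((PL b).map (Pl.map (rel j))) = ∑ D, x D • phi D b' univ

/-- VVF: the closed formula for the sums over the chains -/
def T_VVF : Prop :=
  ∀ (N k : ℕ) (A B : Matrix (Fin N) (Fin N) ℤ), VV N k A B =
    (al (k + 1)).eval (N : ℤ) • (A * B) - (if Even k then (1 : ℤ) else 0) • (B * A) -
    ((al k).eval (N : ℤ) * A.trace) • B - ((al k).eval (N : ℤ) * B.trace) • A +
    ((if Odd k then (1 : ℤ) else 0) * (A * B).trace +
      (if k = 0 then 0 else (al (k - 1)).eval (N : ℤ)) * (A.trace * B.trace)) • 1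

/-- VAL: the values of the basic places -/
def T_VAL : Prop :=
  ∀ (b : ℕ × ℕ) (N : ℕ),
    ∑ I : Fin (mb b) → Fin N × Fin N, (((PL b).map (plM (EE I))).prod).trace =
      (N : ℤ) * (hp b).eval (N : ℤ)

/-- HVA: the HOMFLYPT weight system of the basic combinations -/
def T_HVA : Prop :=
  ∀ (b : ℕ × ℕ) (x : CD (mb b) → ℤ), Alt x (PL b) → ∑ D, x D • hh D univ = hp b

/-- PAV: the pairings of the basic symbols and the basic combinations -/
def T_PAV : Prop :=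
  ∀ (b b' : ℕ × ℕ) (x : CD (mb b) → ℤ), Alt x (PL b) →
    (mb b' ≠ mb b → ∑ D, x D • phi D b' univ = 0) ∧
    (b'.1 < b.1 → ∑ D, x D • phi D b' univ = 0) ∧
    (b' = b → ∑ D, x D • phi D b' univ = -1)

/-- UPR: the pairings of products -/
def T_UPR : Prop :=
  ∃ pv : ℕ × ℕ → ℕ × ℕ → ℚ,
    (∀ b b', mb b' ≠ mb b → pv b' b = 0) ∧ (∀ b b', b'.1 < b.1 → pv b' b = 0) ∧
    (∀ b, pv b b = -1) ∧
    ∀ (r : ℕ) (μ : Fin r → ℕ × ℕ) (d : ℕ), ∑ i, mb (μ i) = d → ∃ x : CD d → ℤ,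
      ∀ (r' : ℕ) (ν : Fin r' → ℕ × ℕ),
        (r < r' → ∑ D, x D • (∏ p, phi D (ν p)) univ = 0) ∧
        (∀ h : r' = r, ∑ D, x D • (∏ p, phi D (ν p)) univ =
          ∑ σ : Equiv.Perm (Fin r), ∏ p : Fin r', pv (ν p) (μ (σ (Fin.cast h p))))

/-- CNT: the sums over the permutations -/
def T_CNT : Prop :=
  ∀ pv : ℕ × ℕ → ℕ × ℕ → ℚ,
    (∀ b b', mb b' ≠ mb b → pv b' b = 0) → (∀ b b', b'.1 < b.1 → pv b' b = 0) →
    (∀ b, pv b b = -1) → ∀ (r : ℕ) (ν μ : Fin r → ℕ × ℕ),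
      (∑ p, (ν p).1 ≤ ∑ p, (μ p).1 → univ.val.map ν ≠ univ.val.map μ →
        ∑ σ : Equiv.Perm (Fin r), ∏ p, pv (ν p) (μ (σ p)) = 0) ∧
      (univ.val.map ν = univ.val.map μ →
        ∑ σ : Equiv.Perm (Fin r), ∏ p, pv (ν p) (μ (σ p)) = (-1) ^ r *
          ∏ b ∈ (univ.val.map μ).toFinset, (((univ.val.map μ).count b).factorial : ℚ))

/-- TRI: the inverse of an integral unitriangular matrix -/
def T_TRI : Prop :=
  ∀ (ι : Type) [Fintype ι] [DecidableEq ι] (ρ : ι → ℕ) (M : ι → ι → ℤ),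
    (∀ i, M i i = 1 ∨ M i i = -1) → (∀ i j, i ≠ j → M i j ≠ 0 → ρ i < ρ j) →
    ∀ j, ∃ y : ι → ℤ, ∀ i, ∑ k, M i k * y k = if i = j then 1 else 0

/-- FNI: finiteness -/
def T_FNI : Prop := ∀ d : ℕ, {ν : Multiset (ℕ × ℕ) | wt ν = d}.Finite

/-- INP: the products of the basic symbols are integral -/
def T_INP : Prop := ∀ (d : ℕ) (D : CD d) (ν : Multiset (ℕ × ℕ)), wt ν = d → ∃ z : ℤ, Phi D ν = z

/-- DUA: the dual combinations -/
def T_DUA : Prop :=
  ∀ (d : ℕ) (μ : Multiset (ℕ × ℕ)), wt μ = d → ∃ x : CD d → ℤ,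
    ∀ ν, wt ν = d → ∑ D, (x D : ℚ) * Phi D ν = if ν = μ then 1 else 0

/-! ### the results -/

/-- REA: the realization of the HOMFLYPT weight systems -/
def T_REA.{u} : Prop :=
  ∀ (R : Type u) [CommRing R] (d : ℕ) (W : CD d → R), HType W →
    ∃ v : (n : ℕ) → Wd n → R, KInv v ∧ DegLE v d ∧ Induces v W

/-- CWU: the Conway polynomial is the HOMFLYPT polynomial at `δ = 0` -/
def T_CWU : Prop :=
  ∀ T, Skn sK dK T → ∀ c, Conway c → ∀ m n (w : Wd n),
    PowerSeries.coeff m (c n w) = pc T m 0 n w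

/-- CWF: the even coefficients of the Conway polynomial modulo two -/
def T_CWF : Prop :=
  ∀ c, Conway c → ∀ k, 1 ≤ k → ∃ g : (n : ℕ) → Wd n → ℤ, KInv g ∧ DegLE g (2 * k - 1) ∧
    ∀ n (w : Wd n), Knot w → (2 : ℤ) ∣ PowerSeries.coeff (2 * k) (c n w) -
      Ring.choose (PowerSeries.coeff 2 (c n w)) k - g n w

end Pool.Agent.H59.LIN
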